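import Pool.Agent.Q78.FKI.Ms

set_option autoImplicit false

/-! The mean square inequality. -/

namespace Q78.FKI

open Function H974 Finset Pool.Agent.Q297.FKL
open scoped Classical

noncomputable section

variable {m n k : ℕ} {q : ℝ} {F : Finset Edg}

theorem quot_bound {k D D' E E' z M : ℝ} (hk : 0 ≤ k) (hz : 0 ≤ z) (hM : 12 * k ≤ M) (hM0 : 0 < M)
    (hD : M ≤ D) (hD' : M ≤ D') (hd : |D - D'| ≤ 12 * k) (hE : |E| ≤ z * D)
    (hE' : |E - E'| ≤ z * (6 * k)) : |E / D ^ 2 - E' / D' ^ 2| ≤ 96 * z * k / D ^ 2 := by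
  have hD0 : 0 < D := by linarith
  have hD0' : 0 < D' := by linarith
  obtain ⟨hd1, hd2⟩ := abs_le.1 hd
  have h2 : D ≤ 2 * D' := by linarith
  have e1 : E / D ^ 2 - E' / D' ^ 2 = (E - E') / D' ^ 2 + E * (1 / D ^ 2 - 1 / D' ^ 2) := by
    field_simp
    ring
  have e2 : 1 / D ^ 2 - 1 / D' ^ 2 = (D' - D) * ((D + D') / (D ^ 2 * D' ^ 2)) := by
    field_simp
    ring
  have b1 : |E - E'| / D' ^ 2 ≤ 24 * z * k / D ^ 2 := by
    rw [div_le_div_iff₀ (by positivity) (by positivity)]
    have h4 : D ^ 2 ≤ 4 * D' ^ 2 := by nlinarith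
    calc |E - E'| * D ^ 2 ≤ (z * (6 * k)) * (4 * D' ^ 2) :=
          mul_le_mul hE' h4 (by positivity) (by positivity)
      _ = 24 * z * k * D' ^ 2 := by ring
  have b2 : |1 / D ^ 2 - 1 / D' ^ 2| ≤ 72 * k / D ^ 3 := by
    rw [e2, abs_mul, abs_of_nonneg (show 0 ≤ (D + D') / (D ^ 2 * D' ^ 2) by positivity)]
    have h5 : (D + D') / (D ^ 2 * D' ^ 2) ≤ 6 / D ^ 3 := by
      rw [div_le_div_iff₀ (by positivity) (by positivity)]
      have h6 : (D + D') * D ≤ 6 * D' ^ 2 := by nlinarith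
      calc (D + D') * D ^ 3 = D ^ 2 * ((D + D') * D) := by ring
        _ ≤ D ^ 2 * (6 * D' ^ 2) := mul_le_mul_of_nonneg_left h6 (by positivity)
        _ = 6 * (D ^ 2 * D' ^ 2) := by ring
    have h7 : |D' - D| ≤ 12 * k := by rw [abs_sub_comm]; exact hd
    calc |D' - D| * ((D + D') / (D ^ 2 * D' ^ 2)) ≤ (12 * k) * (6 / D ^ 3) :=
          mul_le_mul h7 h5 (by positivity) (by positivity)
      _ = 72 * k / D ^ 3 := by ring
  have b3 : |E| * |1 / D ^ 2 - 1 / D' ^ 2| ≤ 72 * z * k / D ^ 2 := by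
    calc |E| * |1 / D ^ 2 - 1 / D' ^ 2| ≤ (z * D) * (72 * k / D ^ 3) :=
          mul_le_mul hE b2 (abs_nonneg _) (by positivity)
      _ = 72 * z * k / D ^ 2 := by field_simp
  rw [e1]
  refine (abs_add_le _ _).trans ?_
  rw [abs_div, abs_mul, abs_of_pos (show 0 < D' ^ 2 by positivity)]
  have e3 : 96 * z * k / D ^ 2 = 24 * z * k / D ^ 2 + 72 * z * k / D ^ 2 := by ring
  rw [e3]
  exact add_le_add b1 b3

/-- the number of contacts or `M` -/
def DD (m n k : ℕ) (M : ℝ) (F : Finset Edg) : ℝ :=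
  max (((SS m n k F).card : ℝ) + (TS m n k F).card) M

def EE (m n k : ℕ) (q : ℝ) (h : Cor × List Cor → ℝ) (F : Finset Edg) : ℝ :=
  Real.sqrt q * ∑ p ∈ SS m n k F, h p - ∑ p ∈ TS m n k F, h p

theorem abs_sum_card {h : Cor × List Cor → ℝ} (hh : ∀ p, |h p| ≤ 1)
    (Z : Finset (Cor × List Cor)) : |∑ p ∈ Z, h p| ≤ Z.card := by
  refine (abs_sum_le_sum_abs _ _).trans ?_
  refine (sum_le_sum fun q _ => hh q).trans ?_
  simp

theorem EE_le {h : Cor × List Cor → ℝ} (hh : ∀ p, |h p| ≤ 1) (M : ℝ) (F : Finset Edg) :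
    |EE m n k q h F| ≤ (1 + Real.sqrt q) * DD m n k M F := by
  unfold EE
  refine (abs_sub _ _).trans ?_
  have hs := Real.sqrt_nonneg q
  rw [abs_mul, abs_of_nonneg hs]
  have h1 := abs_sum_card hh (SS m n k F)
  have h2 := abs_sum_card hh (TS m n k F)
  have h3 : ((SS m n k F).card : ℝ) + (TS m n k F).card ≤ DD m n k M F := le_max_left _ _
  have h4 : (0 : ℝ) ≤ (SS m n k F).card := Nat.cast_nonneg _
  have h5 : (0 : ℝ) ≤ (TS m n k F).card := Nat.cast_nonneg _
  have h6 := mul_le_mul_of_nonneg_left h1 hs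
  have h7 := mul_le_mul_of_nonneg_left h3 hs
  nlinarith

theorem max_diff {a b M c : ℝ} (h : |a - b| ≤ c) : |max a M - max b M| ≤ c :=
  (abs_max_sub_max_le_abs a b M).trans h

theorem DD_change (hF : F ⊆ edges m n) {p : Cor × List Cor} (hp : p ∈ SS m n k F) (M : ℝ) :
    |DD m n k M F - DD m n k M (fl (ex p.1) F)| ≤ 12 * k := by
  obtain ⟨h1, h2⟩ := N_change hF hp (h := fun _ => (1 : ℝ)) (fun _ => by simp)
  simp only [sum_const, nsmul_eq_mul, mul_one] at h1 h2
  unfold DD
  apply max_diff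
  rw [add_sub_add_comm]
  refine (abs_add_le _ _).trans ?_
  linarith

theorem EE_change (hF : F ⊆ edges m n) {p : Cor × List Cor} (hp : p ∈ SS m n k F)
    {h : Cor × List Cor → ℝ} (hh : ∀ p, |h p| ≤ 1) :
    |EE m n k q h F - EE m n k q h (fl (ex p.1) F)| ≤ (1 + Real.sqrt q) * (6 * k) := by
  obtain ⟨h1, h2⟩ := N_change hF hp hh
  have hs := Real.sqrt_nonneg q
  unfold EE
  have e : Real.sqrt q * ∑ p ∈ SS m n k F, h p - ∑ p ∈ TS m n k F, h p -
      (Real.sqrt q * ∑ p ∈ SS m n k (fl (ex p.1) F), h p -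
        ∑ p ∈ TS m n k (fl (ex p.1) F), h p) =
      Real.sqrt q * (∑ p ∈ SS m n k F, h p - ∑ p ∈ SS m n k (fl (ex p.1) F), h p) -
      (∑ p ∈ TS m n k F, h p - ∑ p ∈ TS m n k (fl (ex p.1) F), h p) := by ring
  rw [e]
  refine (abs_sub _ _).trans ?_
  rw [abs_mul, abs_of_nonneg hs]
  have := mul_le_mul_of_nonneg_left h1 hs
  linarith

/-- **the mean square of the balance** -/
theorem ms (hq : 0 < q) (hq4 : q ≤ 4) {h : Cor × List Cor → ℝ} (hh : ∀ p, |h p| ≤ 1) {M : ℝ}
    (hM : 0 < M) : ∑ F ∈ (edges m n).powerset, fk m n q F *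
      (EE m n k q h F / DD m n k M F) ^ 2 ≤ 600 * k / M := by
  obtain ⟨y, hy⟩ : ∃ y, y = Real.sqrt q := ⟨_, rfl⟩
  have hy0 : 0 < y := by rw [hy]; exact Real.sqrt_pos.2 hq
  have hy2 : y ≤ 2 := by
    rw [hy, Real.sqrt_le_left (by norm_num)]
    norm_num
    exact hq4
  have hDM : ∀ F, M ≤ DD m n k M F := fun F => le_max_right _ _
  have hD0 : ∀ F, 0 < DD m n k M F := fun F => hM.trans_le (hDM F)
  have hk0 : (0 : ℝ) ≤ k := Nat.cast_nonneg k
  have hfk : ∀ F ∈ (edges m n).powerset, 0 ≤ fk m n q F :=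
    fun F hF => fk_nonneg hq (Finset.mem_powerset.1 hF)
  rcases lt_or_ge M (12 * k) with hs | hs
  · have h1 : ∀ F ∈ (edges m n).powerset, fk m n q F * (EE m n k q h F / DD m n k M F) ^ 2 ≤
        fk m n q F * 9 := by
      intro F hF
      refine mul_le_mul_of_nonneg_left ?_ (hfk F hF)
      have h2 := EE_le (m := m) (n := n) (k := k) (q := q) hh M F
      rw [← hy] at h2
      have h3 : |EE m n k q h F / DD m n k M F| ≤ 3 := by
        rw [abs_div, abs_of_pos (hD0 F), div_le_iff₀ (hD0 F)]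
        refine h2.trans (mul_le_mul_of_nonneg_right (by linarith) (hD0 F).le)
      rw [← sq_abs]
      nlinarith [abs_nonneg (EE m n k q h F / DD m n k M F)]
    refine (sum_le_sum h1).trans ?_
    rw [← sum_mul, fk_sum m n hq, one_mul, le_div_iff₀ hM]
    linarith
  · -- the main case
    have e1 : ∑ F ∈ (edges m n).powerset, fk m n q F *
        (EE m n k q h F / DD m n k M F) ^ 2 =
        ∑ F ∈ (edges m n).powerset, fk m n q F * ∑ p ∈ SS m n k F,
          y * (h p * (EE m n k q h F / DD m n k M F ^ 2)) -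
        ∑ F ∈ (edges m n).powerset, fk m n q F * ∑ p ∈ TS m n k F,
          h p * (EE m n k q h F / DD m n k M F ^ 2) := by
      rw [← sum_sub_distrib]
      refine sum_congr rfl fun F _ => ?_
      rw [← mul_sub]
      congr 1
      rw [← mul_sum, ← sum_mul, ← sum_mul, div_pow]
      have e2 : EE m n k q h F = y * ∑ p ∈ SS m n k F, h p - ∑ p ∈ TS m n k F, h p := by
        rw [hy]; rfl
      have e3 : EE m n k q h F ^ 2 / DD m n k M F ^ 2 =
        (y * ∑ p ∈ SS m n k F, h p - ∑ p ∈ TS m n k F, h p) *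
          (EE m n k q h F / DD m n k M F ^ 2) := by
        rw [← e2]; ring
      rw [e3]
      ring
    have e2 := dcount (m := m) (n := n) (k := k) hq
      (fun F p => h p * (EE m n k q h F / DD m n k M F ^ 2))
    rw [← hy] at e2
    rw [e1, e2, mul_sum, ← sum_sub_distrib]
    have key : ∀ F ∈ (edges m n).powerset, fk m n q F * ∑ p ∈ SS m n k F,
          y * (h p * (EE m n k q h F / DD m n k M F ^ 2)) -
        y * (fk m n q F * ∑ p ∈ SS m n k F, h p * (EE m n k q h (fl (ex p.1) F) /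
          DD m n k M (fl (ex p.1) F) ^ 2)) ≤ fk m n q F * (600 * k / M) := by
      intro F hF
      have hF' := Finset.mem_powerset.1 hF
      have e3 : fk m n q F * ∑ p ∈ SS m n k F,
          y * (h p * (EE m n k q h F / DD m n k M F ^ 2)) -
        y * (fk m n q F * ∑ p ∈ SS m n k F, h p * (EE m n k q h (fl (ex p.1) F) /
          DD m n k M (fl (ex p.1) F) ^ 2)) = fk m n q F * ∑ p ∈ SS m n k F,
          y * (h p * (EE m n k q h F / DD m n k M F ^ 2 - EE m n k q h (fl (ex p.1) F) /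
          DD m n k M (fl (ex p.1) F) ^ 2)) := by
        rw [mul_left_comm y, ← mul_sub, mul_sum (SS m n k F), ← sum_sub_distrib]
        congr 1
        exact sum_congr rfl fun p _ => by ring
      rw [e3]
      refine mul_le_mul_of_nonneg_left ?_ (hfk F hF)
      have k1 : ∀ p ∈ SS m n k F, y * (h p * (EE m n k q h F / DD m n k M F ^ 2 -
          EE m n k q h (fl (ex p.1) F) / DD m n k M (fl (ex p.1) F) ^ 2)) ≤
          2 * (96 * 3 * k / DD m n k M F ^ 2) := by
        intro p hp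
        have h1 := EE_le (m := m) (n := n) (k := k) (q := q) hh M F
        have h2 := DD_change hF' hp M
        have h3 := EE_change (q := q) hF' hp hh
        rw [← hy] at h1 h3
        have h1' : |EE m n k q h F| ≤ 3 * DD m n k M F :=
          h1.trans (mul_le_mul_of_nonneg_right (by linarith) (hD0 F).le)
        have h3' : |EE m n k q h F - EE m n k q h (fl (ex p.1) F)| ≤ 3 * (6 * k) :=
          h3.trans (mul_le_mul_of_nonneg_right (by linarith) (by positivity))
        have h4 := quot_bound hk0 (by norm_num) hs hM (hDM F) (hDM _) h2 h1' h3'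
        obtain ⟨X, hX⟩ : ∃ X, X = EE m n k q h F / DD m n k M F ^ 2 -
          EE m n k q h (fl (ex p.1) F) / DD m n k M (fl (ex p.1) F) ^ 2 := ⟨_, rfl⟩
        rw [← hX] at h4 ⊢
        calc y * (h p * X) ≤ y * |h p * X| := mul_le_mul_of_nonneg_left (le_abs_self _) hy0.le
          _ ≤ y * (1 * (96 * 3 * k / DD m n k M F ^ 2)) := by
              rw [abs_mul]
              exact mul_le_mul_of_nonneg_left (mul_le_mul (hh p) h4 (abs_nonneg _) zero_le_one)
                hy0.le
          _ ≤ 2 * (96 * 3 * k / DD m n k M F ^ 2) := by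
              rw [one_mul]
              have := hD0 F
              exact mul_le_mul_of_nonneg_right hy2 (by positivity)
      refine (sum_le_card_nsmul _ _ _ k1).trans ?_
      rw [nsmul_eq_mul]
      have h5 : ((SS m n k F).card : ℝ) ≤ DD m n k M F := by
        have : ((SS m n k F).card : ℝ) + (TS m n k F).card ≤ DD m n k M F := le_max_left _ _
        have h6 : (0 : ℝ) ≤ (TS m n k F).card := Nat.cast_nonneg _
        linarith
      have h7 := hD0 F
      calc ((SS m n k F).card : ℝ) * (2 * (96 * 3 * k / DD m n k M F ^ 2)) ≤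
            DD m n k M F * (2 * (96 * 3 * k / DD m n k M F ^ 2)) :=
            mul_le_mul_of_nonneg_right h5 (by positivity)
        _ = 576 * k / DD m n k M F := by field_simp; ring
        _ ≤ 576 * k / M := div_le_div_of_nonneg_left (by positivity) hM (hDM F)
        _ ≤ 600 * k / M := by gcongr; norm_num
    refine (sum_le_sum key).trans ?_
    rw [← sum_mul, fk_sum m n hq, one_mul]

end

end Q78.FKI
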