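import Pool.Agent.Q78.FKI.Flip
import Pool.Agent.Q297.FKL.Defs

set_option autoImplicit false

/-! Corners and loops of a set of edges of the square lattice. -/

namespace Q78.FKI

open Function H974 Finset
open scoped Classical

noncomputable section

/-- the corner `(v, k)`: the `k`-th quadrant at the vertex `v` -/
abbrev Cor := Vtx × Fin 4

/-- the edge which leaves `v` in the direction `k` (right, up, left, down) -/
def ed (v : Vtx) (k : Fin 4) : Edg :=
  ![(v.1, v.2, true), (v.1, v.2, false), (v.1 - 1, v.2, true), (v.1, v.2 - 1, false)] k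

/-- the neighbour of `v` in the direction `k` -/
def nb (v : Vtx) (k : Fin 4) : Vtx :=
  ![(v.1 + 1, v.2), (v.1, v.2 + 1), (v.1 - 1, v.2), (v.1, v.2 - 1)] k

/-- the edge after the corner `c` -/
def ex (c : Cor) : Edg := ed c.1 (c.2 + 1)

/-- the other corner before the same edge -/
def par (c : Cor) : Cor := (nb c.1 (c.2 + 1), c.2 + 2)

def rot (c : Cor) : Cor := (c.1, c.2 + 1)

/-- the next corner of the loop -/
def nxt (S : Set Edg) (c : Cor) : Cor :=
  if ex c ∈ S then (nb c.1 (c.2 + 1), c.2 + 3) else (c.1, c.2 + 1)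

theorem par_par (c : Cor) : par (par c) = c := by
  obtain ⟨⟨x, y⟩, k⟩ := c
  fin_cases k <;> simp [par, nb]

theorem ex_par (c : Cor) : ex (par c) = ex c := by
  obtain ⟨⟨x, y⟩, k⟩ := c
  fin_cases k <;> simp [par, nb, ex, ed]

theorem par_ne (c : Cor) : par c ≠ c := by
  obtain ⟨⟨x, y⟩, k⟩ := c
  fin_cases k <;> simp [par]

theorem rot_par (c : Cor) : rot (par c) = (nb c.1 (c.2 + 1), c.2 + 3) := by
  obtain ⟨⟨x, y⟩, k⟩ := c
  fin_cases k <;> simp [par, rot]

theorem nxt_eq (S : Set Edg) (c : Cor) : nxt S c = if ex c ∈ S then rot (par c) else rot c := by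
  unfold nxt
  rw [rot_par]
  rfl

theorem ex_eq_iff {c d : Cor} : ex c = ex d ↔ c = d ∨ c = par d := by
  obtain ⟨⟨x, y⟩, k⟩ := c
  obtain ⟨⟨z, w⟩, l⟩ := d
  fin_cases k <;> fin_cases l <;> simp [par, nb, ex, ed, Prod.ext_iff] <;> omega

theorem ends_ex (c : Cor) : (src (ex c) = c.1 ∧ tgt (ex c) = nb c.1 (c.2 + 1)) ∨
    (src (ex c) = nb c.1 (c.2 + 1) ∧ tgt (ex c) = c.1) := by
  obtain ⟨⟨x, y⟩, k⟩ := c
  fin_cases k <;> simp [ex, ed, nb, src, tgt]

theorem rot_inj : Injective rot := by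
  intro c d h
  unfold rot at h
  rw [Prod.mk.injEq] at h
  exact Prod.ext h.1 (add_right_cancel h.2)

theorem nxt_inj (S : Set Edg) : Injective (nxt S) := by
  intro c d h
  rw [nxt_eq, nxt_eq] at h
  by_cases h1 : ex c ∈ S
  · by_cases h2 : ex d ∈ S
    · rw [if_pos h1, if_pos h2] at h
      have := congrArg par (rot_inj h)
      rwa [par_par, par_par] at this
    · rw [if_pos h1, if_neg h2] at h
      have h3 := rot_inj h
      rw [← h3, ex_par] at h2
      exact absurd h1 h2
  · by_cases h2 : ex d ∈ S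
    · rw [if_neg h1, if_pos h2] at h
      have h3 := rot_inj h
      rw [h3, ex_par] at h1
      exact absurd h2 h1
    · rw [if_neg h1, if_neg h2] at h
      exact rot_inj h

theorem nxt_insert {S : Set Edg} {a : Cor} (h : ex a ∉ S) :
    nxt (insert (ex a) S) = swp (nxt S) a (par a) := by
  funext c
  by_cases h1 : c = a
  · rw [h1, swp_left, nxt_eq, nxt_eq, if_pos (Set.mem_insert _ _), ex_par, if_neg h]
  · by_cases h2 : c = par a
    · rw [h2, swp_right, nxt_eq, nxt_eq, ex_par, if_pos (Set.mem_insert _ _), if_neg h, par_par]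
    · rw [swp_ne h1 h2, nxt_eq, nxt_eq]
      have h3 : ex c ≠ ex a := fun h3 => (ex_eq_iff.1 h3).elim h1 h2
      have h4 : ex c ∈ insert (ex a) S ↔ ex c ∈ S := by
        rw [Set.mem_insert_iff]
        tauto
      simp only [h4]

/-- the corners of a finite set of vertices -/
def CA (V : Finset Vtx) : Finset Cor := V ×ˢ Finset.univ

theorem mem_CA {V : Finset Vtx} {c : Cor} : c ∈ CA V ↔ c.1 ∈ V := by
  unfold CA
  rw [Finset.mem_product]
  simp

theorem good {V : Finset Vtx} {S : Set Edg} (hS : ∀ e ∈ S, src e ∈ V ∧ tgt e ∈ V) :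
    Good (nxt S) (CA V) := by
  refine ⟨nxt_inj S, fun c hc => ?_⟩
  rw [mem_CA] at hc ⊢
  unfold nxt
  split_ifs with h
  · have h1 := hS _ h
    rcases ends_ex c with ⟨-, h2⟩ | ⟨h2, -⟩
    · rw [h2] at h1; exact h1.2
    · rw [h2] at h1; exact h1.1
  · exact hc

theorem reach_nxt (S : Set Edg) (c : Cor) : Reach S c.1 (nxt S c).1 := by
  unfold nxt
  split_ifs with h
  · apply Adj.reach
    refine ⟨ex c, h, ?_⟩
    rcases ends_ex c with ⟨h1, h2⟩ | ⟨h1, h2⟩
    · exact Or.inl ⟨h1, h2⟩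
    · exact Or.inr ⟨h1, h2⟩
  · exact Reach.refl _ _

theorem reach_R {S : Set Edg} {c d : Cor} (h : R (nxt S) c d) : Reach S c.1 d.1 := by
  obtain ⟨t, rfl⟩ := h
  induction t with
  | zero => exact Reach.refl _ _
  | succ t ih =>
    rw [iterate_succ_apply']
    exact ih.trans (reach_nxt S _)

theorem reach_ex {S : Set Edg} {a : Cor} (h : Reach S a.1 (par a).1) :
    Reach S (src (ex a)) (tgt (ex a)) := by
  have h0 : (par a).1 = nb a.1 (a.2 + 1) := rfl
  rcases ends_ex a with ⟨h1, h2⟩ | ⟨h1, h2⟩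
  · rw [h1, h2, ← h0]; exact h
  · rw [h1, h2, ← h0]; exact h.symm

end

end Q78.FKI
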