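import Pool.Agent.Q78.FKI.Wt

set_option autoImplicit false

/-! Contacts of the interface: the mean square. -/

namespace Q78.FKI

open Function H974 Finset Pool.Agent.Q297.FKL
open scoped Classical

noncomputable section

variable {m n k : ℕ} {q : ℝ} {F : Finset Edg} {c d : Cor}

/-- the corners before random edges -/
def cors (m n : ℕ) : Finset Cor := (CA (verts m n)).filter fun c => ex c ∈ edges m n

theorem mem_cors : c ∈ cors m n ↔ ex c ∈ edges m n := by
  unfold cors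
  rw [Finset.mem_filter]
  exact ⟨fun h => h.2, fun h => ⟨(ex_mem (full_of_edges h)).1, h⟩⟩

/-- the contacts of the interface with itself -/
def SS (m n k : ℕ) (F : Finset Edg) : Finset (Cor × List Cor) :=
  ((cors m n ×ˢ Finset.Icc 1 k).filter fun p => TT (nx m n F) (start m) p.1 (par p.1) p.2).image
    fun p => (p.1, pth (nx m n F) p.1 p.2)

/-- the contacts of the interface with closed loops -/
def TS (m n k : ℕ) (F : Finset Edg) : Finset (Cor × List Cor) :=
  ((cors m n ×ˢ Finset.Icc 1 k).filter fun p => UU (nx m n F) (start m) p.1 (par p.1) p.2).image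
    fun p => (p.1, pth (nx m n F) (par p.1) p.2)

theorem mem_SS {p : Cor × List Cor} : p ∈ SS m n k F ↔ ex p.1 ∈ edges m n ∧ p.2.length ≤ k ∧
    SL (nx m n F) (start m) p.1 (par p.1) p.2 := by
  unfold SS SL
  simp only [Finset.mem_image, Finset.mem_filter, Finset.mem_product, Finset.mem_Icc]
  constructor
  · rintro ⟨⟨c, r⟩, ⟨⟨h1, h2, h3⟩, h4⟩, rfl⟩
    simp only [length_pth]
    exact ⟨mem_cors.1 h1, h3, h4, trivial⟩
  · rintro ⟨h1, h2, h3, h4⟩
    exact ⟨(p.1, p.2.length), ⟨⟨mem_cors.2 h1, h3.2.1, h2⟩, h3⟩, Prod.ext rfl h4⟩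

theorem mem_TS {p : Cor × List Cor} : p ∈ TS m n k F ↔ ex p.1 ∈ edges m n ∧ p.2.length ≤ k ∧
    TL (nx m n F) (start m) p.1 (par p.1) p.2 := by
  unfold TS TL
  simp only [Finset.mem_image, Finset.mem_filter, Finset.mem_product, Finset.mem_Icc]
  constructor
  · rintro ⟨⟨c, r⟩, ⟨⟨h1, h2, h3⟩, h4⟩, rfl⟩
    simp only [length_pth]
    exact ⟨mem_cors.1 h1, h3, h4, trivial⟩
  · rintro ⟨h1, h2, h3, h4⟩
    exact ⟨(p.1, p.2.length), ⟨⟨mem_cors.2 h1, h3.2.2.1, h2⟩, h3⟩, Prod.ext rfl h4⟩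

theorem SS_uniq (hF : F ⊆ edges m n) {p p' : Cor × List Cor} (h : p ∈ SS m n k F)
    (h' : p' ∈ SS m n k F) (he : p.1 = p'.1) : p = p' := by
  rw [mem_SS] at h h'
  have h1 := h.2.2
  have h2 := h'.2.2
  rw [← he] at h2
  have := h1.1.uniq (good_nx hF) (start_mem m n) (par_ne _).symm h2.1
  refine Prod.ext he ?_
  rw [← h1.2, ← h2.2, this]

theorem TS_uniq {p p' : Cor × List Cor} (h : p ∈ TS m n k F)
    (h' : p' ∈ TS m n k F) (he : p.1 = p'.1) : p = p' := by
  rw [mem_TS] at h h'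
  have h1 := h.2.2
  have h2 := h'.2.2
  rw [← he] at h2
  have := h1.1.uniq h2.1
  refine Prod.ext he ?_
  rw [← h1.2, ← h2.2, this]

/-- the flip exchanges the two kinds -/
theorem flip_mem (hF : F ⊆ edges m n) {p : Cor × List Cor} (hp : ex p.1 ∈ edges m n) :
    p ∈ SS m n k F ↔ p ∈ TS m n k (fl (ex p.1) F) := by
  have hmem := ex_mem (full_of_edges hp)
  rw [mem_SS, mem_TS, fl_nx hF hp, SL_flip (good_nx hF) (start_mem m n) hmem.1 hmem.2
    (par_ne _).symm (start_ne hp)]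

theorem sum_diff' {h : Cor × List Cor → ℝ} (hh : ∀ p, |h p| ≤ 1)
    {X Y : Finset (Cor × List Cor)} {C : ℕ}
    (h1 : (X \ Y).card ≤ C) (h2 : (Y \ X).card ≤ C) :
    |∑ p ∈ X, h p - ∑ p ∈ Y, h p| ≤ 2 * C := by
  have e1 : ∑ p ∈ X, h p = ∑ p ∈ X \ Y, h p + ∑ p ∈ X ∩ Y, h p := by
    rw [← sum_union (by
      rw [Finset.disjoint_left]
      intro q hq hq'
      rw [mem_sdiff] at hq
      rw [mem_inter] at hq'
      exact hq.2 hq'.2), sdiff_union_inter]
  have e2 : ∑ p ∈ Y, h p = ∑ p ∈ Y \ X, h p + ∑ p ∈ X ∩ Y, h p := by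
    rw [inter_comm, ← sum_union (by
      rw [Finset.disjoint_left]
      intro q hq hq'
      rw [mem_sdiff] at hq
      rw [mem_inter] at hq'
      exact hq.2 hq'.2), sdiff_union_inter]
  have hle : ∀ Z : Finset (Cor × List Cor), |∑ p ∈ Z, h p| ≤ Z.card := by
    intro Z
    refine (abs_sum_le_sum_abs _ _).trans ?_
    refine (sum_le_sum fun q _ => hh q).trans ?_
    simp
  have a1 := hle (X \ Y)
  have a2 := hle (Y \ X)
  have c1 : ((X \ Y).card : ℝ) ≤ C := by exact_mod_cast h1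
  have c2 : ((Y \ X).card : ℝ) ≤ C := by exact_mod_cast h2
  rw [e1, e2, add_sub_add_right_eq_sub]
  refine (abs_sub _ _).trans ?_
  linarith

theorem card_le_of_fst {X : Finset (Cor × List Cor)} {Ch : Finset Cor}
    (h1 : ∀ p ∈ X, ∀ p' ∈ X, p.1 = p'.1 → p = p') (h2 : ∀ p ∈ X, p.1 ∈ Ch) :
    X.card ≤ Ch.card :=
  Finset.card_le_card_of_injOn Prod.fst h2 fun p hp p' hp' he => h1 p hp p' hp' he

/-- the corners at which something can change -/
def Ch (m n k : ℕ) (F : Finset Edg) (a : Cor) : Finset Cor :=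
  ((Finset.Icc 1 k).image fun i => (nx m n F)^[i] a) ∪
    ((Finset.Icc 1 k).image fun i => par ((nx m n F)^[i] a)) ∪
    (Finset.range k).biUnion fun i => (cors m n).filter fun c => (nx m n F)^[i] c = a

theorem card_Ch (hF : F ⊆ edges m n) (a : Cor) : (Ch m n k F a).card ≤ 3 * k := by
  unfold Ch
  have h1 : ((Finset.Icc 1 k).image fun i => (nx m n F)^[i] a).card ≤ k := by
    refine Finset.card_image_le.trans ?_
    simp
  have h2 : ((Finset.Icc 1 k).image fun i => par ((nx m n F)^[i] a)).card ≤ k := by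
    refine Finset.card_image_le.trans ?_
    simp
  have h3 : ((Finset.range k).biUnion fun i => (cors m n).filter
      fun c => (nx m n F)^[i] c = a).card ≤ k * 1 := by
    have := Finset.card_biUnion_le_card_mul (Finset.range k) (fun i => (cors m n).filter
      fun c => (nx m n F)^[i] c = a) 1 (fun i _ => by
        rw [Finset.card_le_one]
        intro c hc d hd
        rw [Finset.mem_filter] at hc hd
        exact (good_nx hF).inj.iterate i (hc.2.trans hd.2.symm))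
    rwa [Finset.card_range] at this
  have h4 := Finset.card_union_le ((Finset.Icc 1 k).image fun i => (nx m n F)^[i] a)
    ((Finset.Icc 1 k).image fun i => par ((nx m n F)^[i] a))
  have h5 := Finset.card_union_le (((Finset.Icc 1 k).image fun i => (nx m n F)^[i] a) ∪
    ((Finset.Icc 1 k).image fun i => par ((nx m n F)^[i] a)))
    ((Finset.range k).biUnion fun i => (cors m n).filter fun c => (nx m n F)^[i] c = a)
  omega

theorem not_Ch {a : Cor} {r : ℕ} (hr : r ≤ k) (hc : c ∈ cors m n) (h : c ∉ Ch m n k F a) :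
    ¬ Cut (nx m n F) a r c ∧ ¬ Cut (nx m n F) a r (par c) ∧ ∀ i < k, (nx m n F)^[i] c ≠ a := by
  unfold Ch at h
  simp only [Finset.mem_union, Finset.mem_image, Finset.mem_Icc, Finset.mem_biUnion,
    Finset.mem_range, Finset.mem_filter, not_or] at h
  obtain ⟨⟨h1, h2⟩, h3⟩ := h
  refine ⟨?_, ?_, ?_⟩
  · rintro ⟨i, i1, i2, i3⟩
    exact h1 ⟨i, ⟨i1, by omega⟩, i3⟩
  · rintro ⟨i, i1, i2, i3⟩
    exact h2 ⟨i, ⟨i1, by omega⟩, by rw [i3, par_par]⟩
  · intro i hi he
    exact h3 ⟨i, hi, hc, he⟩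

theorem same_mem (hF : F ⊆ edges m n) {p : Cor × List Cor} (hp : p ∈ SS m n k F)
    {p' : Cor × List Cor} (h : p'.1 ∉ Ch m n k F p.1) :
    (p' ∈ SS m n k F ↔ p' ∈ SS m n k (fl (ex p.1) F)) ∧
    (p' ∈ TS m n k F ↔ p' ∈ TS m n k (fl (ex p.1) F)) := by
  have hp' := mem_SS.1 hp
  obtain ⟨h1, h2, h3⟩ := hp'
  have hmem := ex_mem (full_of_edges h1)
  by_cases hc : ex p'.1 ∈ edges m n
  · have hmem' := ex_mem (full_of_edges hc)
    obtain ⟨n1, n2, n3⟩ := not_Ch h2 (mem_cors.2 hc) h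
    rw [mem_SS, mem_SS, mem_TS, mem_TS, fl_nx hF h1]
    constructor
    · constructor
      · rintro ⟨k1, k2, k3⟩
        exact ⟨k1, k2, (SL_same (good_nx hF) (start_mem m n) hmem.1 hmem.2 (par_ne _).symm
          (start_ne h1) h3.1 hmem'.1 n1 n3 k2).1 k3⟩
      · rintro ⟨k1, k2, k3⟩
        exact ⟨k1, k2, (SL_same (good_nx hF) (start_mem m n) hmem.1 hmem.2 (par_ne _).symm
          (start_ne h1) h3.1 hmem'.1 n1 n3 k2).2 k3⟩
    · rw [TL_same (good_nx hF) (start_mem m n) hmem.1 hmem.2 (par_ne _).symm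
        (start_ne h1) h3.1 hmem'.1 hmem'.2 n1 n2]
  · rw [mem_SS, mem_SS, mem_TS, mem_TS]
    tauto

theorem N_change (hF : F ⊆ edges m n) {p : Cor × List Cor} (hp : p ∈ SS m n k F)
    {h : Cor × List Cor → ℝ} (hh : ∀ p, |h p| ≤ 1) :
    |∑ p ∈ SS m n k F, h p - ∑ p ∈ SS m n k (fl (ex p.1) F), h p| ≤ 6 * k ∧
    |∑ p ∈ TS m n k F, h p - ∑ p ∈ TS m n k (fl (ex p.1) F), h p| ≤ 6 * k := by
  have hp1 := (mem_SS.1 hp).1
  have hF' := fl_sub hp1 hF
  have hC := card_Ch (k := k) hF p.1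
  have e : (2 * ((3 * k : ℕ) : ℝ)) = 6 * k := by push_cast; ring
  constructor
  · rw [← e]
    apply sum_diff' hh
    · refine (card_le_of_fst (Ch := Ch m n k F p.1) ?_ ?_).trans hC
      · intro p1 h1 p2 h2 he
        exact SS_uniq hF (mem_sdiff.1 h1).1 (mem_sdiff.1 h2).1 he
      · intro p1 h1
        by_contra hn
        rw [mem_sdiff, (same_mem hF hp hn).1] at h1
        exact h1.2 h1.1
    · refine (card_le_of_fst (Ch := Ch m n k F p.1) ?_ ?_).trans hC
      · intro p1 h1 p2 h2 he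
        exact SS_uniq hF' (mem_sdiff.1 h1).1 (mem_sdiff.1 h2).1 he
      · intro p1 h1
        by_contra hn
        rw [mem_sdiff, (same_mem hF hp hn).1] at h1
        exact h1.2 h1.1
  · rw [← e]
    apply sum_diff' hh
    · refine (card_le_of_fst (Ch := Ch m n k F p.1) ?_ ?_).trans hC
      · intro p1 h1 p2 h2 he
        exact TS_uniq (mem_sdiff.1 h1).1 (mem_sdiff.1 h2).1 he
      · intro p1 h1
        by_contra hn
        rw [mem_sdiff, (same_mem hF hp hn).2] at h1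
        exact h1.2 h1.1
    · refine (card_le_of_fst (Ch := Ch m n k F p.1) ?_ ?_).trans hC
      · intro p1 h1 p2 h2 he
        exact TS_uniq (mem_sdiff.1 h1).1 (mem_sdiff.1 h2).1 he
      · intro p1 h1
        by_contra hn
        rw [mem_sdiff, (same_mem hF hp hn).2] at h1
        exact h1.2 h1.1

/-- double counting -/
theorem dcount (hq : 0 < q) (G : Finset Edg → Cor × List Cor → ℝ) :
    ∑ F ∈ (edges m n).powerset, fk m n q F * ∑ p ∈ TS m n k F, G F p =
      Real.sqrt q * ∑ F ∈ (edges m n).powerset, fk m n q F *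
        ∑ p ∈ SS m n k F, G (fl (ex p.1) F) p := by
  rw [mul_sum]
  simp only [mul_sum]
  rw [Finset.sum_sigma', Finset.sum_sigma']
  symm
  refine Finset.sum_bij'
    (fun (x : (_ : Finset Edg) × (Cor × List Cor)) _ =>
      (⟨fl (ex x.2.1) x.1, x.2⟩ : (_ : Finset Edg) × (Cor × List Cor)))
    (fun (x : (_ : Finset Edg) × (Cor × List Cor)) _ =>
      (⟨fl (ex x.2.1) x.1, x.2⟩ : (_ : Finset Edg) × (Cor × List Cor))) ?_ ?_ ?_ ?_ ?_
  · rintro ⟨F, p⟩ hx
    rw [Finset.mem_sigma, Finset.mem_powerset] at hx ⊢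
    have h1 := (mem_SS.1 hx.2).1
    exact ⟨fl_sub h1 hx.1, (flip_mem hx.1 h1).1 hx.2⟩
  · rintro ⟨F, p⟩ hx
    rw [Finset.mem_sigma, Finset.mem_powerset] at hx ⊢
    have h1 := (mem_TS.1 hx.2).1
    refine ⟨fl_sub h1 hx.1, (flip_mem (fl_sub h1 hx.1) h1).2 ?_⟩
    rw [fl_fl]
    exact hx.2
  · rintro ⟨F, p⟩ hx
    show (⟨fl (ex p.1) (fl (ex p.1) F), p⟩ : (_ : Finset Edg) × (Cor × List Cor)) = ⟨F, p⟩
    rw [fl_fl]
  · rintro ⟨F, p⟩ hx
    show (⟨fl (ex p.1) (fl (ex p.1) F), p⟩ : (_ : Finset Edg) × (Cor × List Cor)) = ⟨F, p⟩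
    rw [fl_fl]
  · rintro ⟨F, p⟩ hx
    rw [Finset.mem_sigma, Finset.mem_powerset] at hx
    obtain ⟨h1, h2⟩ := hx
    have h3 := mem_SS.1 h2
    have hR : R (nx m n F) p.1 (par p.1) := ⟨_, h3.2.2.1.2.2.1⟩
    show Real.sqrt q * (fk m n q F * G (fl (ex p.1) F) p) =
      fk m n q (fl (ex p.1) F) * G (fl (ex p.1) F) p
    rw [fk_fl hq h1 h3.1 hR]
    ring

end

end Q78.FKI
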