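import Pool.Agent.Q78.FKI.Expl
import Pool.Agent.Q78.FKI.Ms

set_option autoImplicit false

/-! Deterministic properties of the interface. -/

namespace Q78.FKI

open Function H974 Finset Pool.Agent.Q297.FKL
open scoped Classical

noncomputable section

variable {m n : ℕ} {F : Finset Edg} {c d : Cor}

theorem nx_open (h : ex c ∈ (↑F ∪ wired m n : Set Edg)) :
    nx m n F c = (nb c.1 (c.2 + 1), c.2 + 3) := by
  unfold nx nxt
  rw [if_pos h]

theorem nx_closed (h : ex c ∉ (↑F ∪ wired m n : Set Edg)) : nx m n F c = (c.1, c.2 + 1) := by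
  unfold nx nxt
  rw [if_neg h]

/-- the edge before a corner -/
theorem ex_prev (c : Cor) : ex c = ed (nx m n F c).1 (nx m n F c).2 := by
  by_cases h : ex c ∈ (↑F ∪ wired m n : Set Edg)
  · rw [nx_open h]
    obtain ⟨⟨x, y⟩, k⟩ := c
    fin_cases k <;> simp [ex, ed, nb]
  · rw [nx_closed h]
    rfl

theorem not_mem_of {x y : ℤ} {b : Bool} (hF : F ⊆ edges m n)
    (h : x < 0 ∨ y < 0) : (x, y, b) ∉ (↑F ∪ wired m n : Set Edg) := by
  rintro (h1 | h1)
  · have := hF h1
    rw [mem_edges] at this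
    omega
  · rw [mem_wired] at h1
    omega

theorem one {c d : Cor} (h : nx m n F c = d) : R (nx m n F) c d := ⟨1, h⟩

/-- the corner at the upper left is on the loop of the start -/
theorem reach_top (hF : F ⊆ edges m n) : R (nx m n F) (start m) ((0, (n : ℤ)), 2) := by
  have hA : (((0 : ℤ), (n : ℤ)), (2 : Fin 4)) ∈ CA (verts m n) := by
    rw [mem_CA, mem_verts]; simp
  apply (good_nx hF).symm hA
  have hy : ∀ y : ℕ, y ≤ n → R (nx m n F) ((0, (y : ℤ)), 2) ((0, 0), 2) := by
    intro y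
    induction y with
    | zero => intro _; exact R.refl _
    | succ y ih =>
      intro h
      refine R.trans ?_ (ih (by omega))
      have h1 : nx m n F ((0, ((y + 1 : ℕ) : ℤ)), 2) = ((0, (y : ℤ)), 1) := by
        rw [nx_open]
        · simp [nb]
        · right
          simp only [ex, ed]
          simp only [Fin.isValue, Fin.reduceAdd, Matrix.cons_val, Nat.cast_add, Nat.cast_one,
            add_sub_cancel_right]
          rw [mem_wired]
          right
          refine ⟨rfl, rfl, by omega, by omega⟩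
      have h2 : nx m n F ((0, (y : ℤ)), 1) = ((0, (y : ℤ)), 2) := by
        rw [nx_closed]
        · rfl
        · have : ex (((0 : ℤ), (y : ℤ)), (1 : Fin 4)) = (-1, (y : ℤ), true) := by simp [ex, ed]
          rw [this]
          exact not_mem_of hF (Or.inl (by norm_num))
      exact (one h1).trans (one h2)
  have h0 : R (nx m n F) ((0, 0), 2) ((0, 0), 3) := by
    apply one
    rw [nx_closed]
    · rfl
    · have : ex (((0 : ℤ), (0 : ℤ)), (2 : Fin 4)) = (0, -1, false) := by simp [ex, ed]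
      rw [this]
      exact not_mem_of hF (Or.inr (by norm_num))
  have hx : ∀ x : ℕ, x ≤ m → R (nx m n F) ((0, 0), 3) (((x : ℤ), 0), 3) := by
    intro x
    induction x with
    | zero => intro _; exact R.refl _
    | succ x ih =>
      intro h
      refine (ih (by omega)).trans ?_
      have h1 : nx m n F (((x : ℤ), 0), 3) = ((((x + 1 : ℕ) : ℤ), 0), 2) := by
        rw [nx_open]
        · simp [nb]
        · right
          simp only [ex, ed]
          simp only [Fin.isValue, Fin.reduceAdd, Matrix.cons_val]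
          rw [mem_wired]
          left
          refine ⟨rfl, rfl, by omega, by omega⟩
      have h2 : nx m n F ((((x + 1 : ℕ) : ℤ), 0), 2) = ((((x + 1 : ℕ) : ℤ), 0), 3) := by
        rw [nx_closed]
        · rfl
        · have : ex ((((x + 1 : ℕ) : ℤ), (0 : ℤ)), (2 : Fin 4)) =
            (((x + 1 : ℕ) : ℤ), -1, false) := by simp [ex, ed]
          rw [this]
          exact not_mem_of hF (Or.inr (by norm_num))
      exact (one h1).trans (one h2)
  exact ((hy n le_rfl).trans h0).trans (hx m le_rfl)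

/-- one step changes the coordinates by at most one -/
theorem step_le (c : Cor) : ((nx m n F c).1.1 = c.1.1 ∨ (nx m n F c).1.1 = c.1.1 + 1 ∨
    ((nx m n F c).1.1 = c.1.1 - 1 ∧ c.2 = 1 ∧ ex c ∈ (↑F ∪ wired m n : Set Edg))) ∧
    ((nx m n F c).1.2 = c.1.2 ∨ (nx m n F c).1.2 = c.1.2 - 1 ∨
    ((nx m n F c).1.2 = c.1.2 + 1 ∧ c.2 = 0 ∧ ex c ∈ (↑F ∪ wired m n : Set Edg))) := by
  by_cases h : ex c ∈ (↑F ∪ wired m n : Set Edg)
  · rw [nx_open h]
    obtain ⟨⟨x, y⟩, k⟩ := c
    fin_cases k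
    · refine ⟨Or.inl ?_, Or.inr (Or.inr ⟨?_, rfl, h⟩)⟩ <;> simp [nb]
    · refine ⟨Or.inr (Or.inr ⟨?_, rfl, h⟩), Or.inl ?_⟩ <;> simp [nb]
    · refine ⟨Or.inl ?_, Or.inr (Or.inl ?_)⟩ <;> simp [nb]
    · refine ⟨Or.inr (Or.inl ?_), Or.inl ?_⟩ <;> simp [nb]
  · rw [nx_closed h]
    exact ⟨Or.inl rfl, Or.inl rfl⟩

/-- the columns -/
theorem col (hF : F ⊆ edges m n) (hn : 1 ≤ n) {x : ℤ} (h1 : 1 ≤ x) (h2 : x ≤ m) :
    ∃ c, R (nx m n F) (start m) c ∧ ex c ∈ edges m n ∧
      (if (ex c).2.2 then (ex c).1 + 1 else (ex c).1) = x := by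
  obtain ⟨T, hT⟩ := reach_top (m := m) (n := n) hF
  have hex : ∃ t, ((nx m n F)^[t] (start m)).1.1 < x := ⟨T, by rw [hT]; simp; omega⟩
  obtain ⟨t, ht⟩ : ∃ t, t = Nat.find hex := ⟨_, rfl⟩
  have ht1 : ((nx m n F)^[t] (start m)).1.1 < x := by rw [ht]; exact Nat.find_spec hex
  have ht2 : ∀ i < t, x ≤ ((nx m n F)^[i] (start m)).1.1 := by
    intro i hi
    rw [ht] at hi
    have := Nat.find_min hex hi
    omega
  have ht0 : t ≠ 0 := by
    intro h0
    rw [h0] at ht1
    simp only [iterate_zero, id_eq, start] at ht1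
    omega
  obtain ⟨u, rfl⟩ : ∃ u, t = u + 1 := ⟨t - 1, by omega⟩
  obtain ⟨c, hc⟩ : ∃ c, c = (nx m n F)^[u] (start m) := ⟨_, rfl⟩
  have hRc : R (nx m n F) (start m) c := ⟨u, hc.symm⟩
  have hx1 : x ≤ c.1.1 := by rw [hc]; exact ht2 u (by omega)
  rw [iterate_succ_apply', ← hc] at ht1
  obtain ⟨hs1, -⟩ := step_le (m := m) (n := n) (F := F) c
  have hs : (nx m n F c).1.1 = c.1.1 - 1 ∧ c.2 = 1 ∧ ex c ∈ (↑F ∪ wired m n : Set Edg) := by
    rcases hs1 with h | h | h
    · omega
    · omega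
    · exact h
  obtain ⟨hs2, hs3, hs4⟩ := hs
  have hcx : c.1.1 = x := by omega
  obtain ⟨⟨cx, cy⟩, k⟩ := c
  simp only at hs3 hcx
  subst hs3
  subst hcx
  have hexc : ex ((cx, cy), (1 : Fin 4)) = (cx - 1, cy, true) := by simp [ex, ed]
  rcases hs4 with h | h
  · refine ⟨((cx, cy), 1), hRc, hF h, ?_⟩
    rw [hexc]
    simp
  · -- the wired edge
    rw [hexc, mem_wired] at h
    have hy : cy = 0 := by
      rcases h with h | h
      · exact h.2.1
      · simp at h
    subst hy
    have hu0 : u ≠ 0 := by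
      intro h0
      rw [h0] at hc
      simp [start] at hc
    obtain ⟨v, rfl⟩ : ∃ v, u = v + 1 := ⟨u - 1, by omega⟩
    rw [iterate_succ_apply'] at hc
    have hp := ex_prev (m := m) (n := n) (F := F) ((nx m n F)^[v] (start m))
    rw [← hc] at hp
    have e : ed ((cx, (0 : ℤ)) : Vtx) 1 = (cx, 0, false) := by simp [ed]
    simp only at hp
    rw [e] at hp
    refine ⟨(nx m n F)^[v] (start m), ⟨v, rfl⟩, ?_, ?_⟩
    · rw [hp, mem_edges]
      right
      refine ⟨rfl, h1, h2, le_rfl, by omega⟩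
    · rw [hp]
      simp

/-- the rows -/
theorem row (hF : F ⊆ edges m n) (hm : 1 ≤ m) {y : ℤ} (h1 : 1 ≤ y) (h2 : y ≤ n) :
    ∃ c, R (nx m n F) (start m) c ∧ ex c ∈ edges m n ∧
      (if (ex c).2.2 then (ex c).2.1 else (ex c).2.1 + 1) = y := by
  obtain ⟨T, hT⟩ := reach_top (m := m) (n := n) hF
  have hex : ∃ t, y ≤ ((nx m n F)^[t] (start m)).1.2 := ⟨T, by rw [hT]; simpa using h2⟩
  obtain ⟨t, ht⟩ : ∃ t, t = Nat.find hex := ⟨_, rfl⟩
  have ht1 : y ≤ ((nx m n F)^[t] (start m)).1.2 := by rw [ht]; exact Nat.find_spec hex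
  have ht2 : ∀ i < t, ((nx m n F)^[i] (start m)).1.2 < y := by
    intro i hi
    rw [ht] at hi
    have := Nat.find_min hex hi
    omega
  have ht0 : t ≠ 0 := by
    intro h0
    rw [h0] at ht1
    simp only [iterate_zero, id_eq, start] at ht1
    omega
  obtain ⟨u, rfl⟩ : ∃ u, t = u + 1 := ⟨t - 1, by omega⟩
  obtain ⟨c, hc⟩ : ∃ c, c = (nx m n F)^[u] (start m) := ⟨_, rfl⟩
  have hRc : R (nx m n F) (start m) c := ⟨u, hc.symm⟩
  have hx1 : c.1.2 < y := by rw [hc]; exact ht2 u (by omega)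
  rw [iterate_succ_apply', ← hc] at ht1
  obtain ⟨-, hs1⟩ := step_le (m := m) (n := n) (F := F) c
  have hs : (nx m n F c).1.2 = c.1.2 + 1 ∧ c.2 = 0 ∧ ex c ∈ (↑F ∪ wired m n : Set Edg) := by
    rcases hs1 with h | h | h
    · omega
    · omega
    · exact h
  obtain ⟨hs2, hs3, hs4⟩ := hs
  have hcy : c.1.2 = y - 1 := by omega
  obtain ⟨⟨cx, cy⟩, k⟩ := c
  simp only at hs3 hcy
  subst hs3
  subst hcy
  have hexc : ex ((cx, y - 1), (0 : Fin 4)) = (cx, y - 1, false) := by simp [ex, ed]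
  rcases hs4 with h | h
  · refine ⟨((cx, y - 1), 0), hRc, hF h, ?_⟩
    rw [hexc]
    simp
  · have hx0 : cx = 0 := by
      rw [hexc, mem_wired] at h
      rcases h with h | h
      · simp at h
      · exact h.2.1
    subst hx0
    have hnx : nx m n F ((0, y - 1), (0 : Fin 4)) = ((0, y), 3) := by
      rw [nx_open (Or.inr h)]
      simp [nb]
    have hexn : ex ((0, y), (3 : Fin 4)) = (0, y, true) := by simp [ex, ed]
    refine ⟨((0, y), 3), ?_, ?_, ?_⟩
    · rw [← hnx]; exact hRc.step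
    · rw [hexn, mem_edges]
      left
      refine ⟨rfl, le_rfl, by omega, h1, h2⟩
    · rw [hexn]
      simp

/-- the random edges examined by the interface -/
def EX (m n : ℕ) (F : Finset Edg) : Finset Edg :=
  (edges m n).filter fun e => ∃ c, R (nx m n F) (start m) c ∧ ex c = e

theorem card_EX (hF : F ⊆ edges m n) (hm : 1 ≤ m) (hn : 1 ≤ n) :
    m ≤ (EX m n F).card ∧ n ≤ (EX m n F).card := by
  constructor
  · have h : Finset.Icc 1 (m : ℤ) ⊆ (EX m n F).image
        (fun e => if e.2.2 then e.1 + 1 else e.1) := by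
      intro x hx
      rw [Finset.mem_Icc] at hx
      obtain ⟨c, h1, h2, h3⟩ := col hF hn hx.1 hx.2
      rw [Finset.mem_image]
      refine ⟨ex c, ?_, h3⟩
      unfold EX
      rw [Finset.mem_filter]
      exact ⟨h2, c, h1, rfl⟩
    have h4 := (Finset.card_le_card h).trans Finset.card_image_le
    simpa using h4
  · have h : Finset.Icc 1 (n : ℤ) ⊆ (EX m n F).image
        (fun e => if e.2.2 then e.2.1 else e.2.1 + 1) := by
      intro x hx
      rw [Finset.mem_Icc] at hx
      obtain ⟨c, h1, h2, h3⟩ := row hF hm hx.1 hx.2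
      rw [Finset.mem_image]
      refine ⟨ex c, ?_, h3⟩
      unfold EX
      rw [Finset.mem_filter]
      exact ⟨h2, c, h1, rfl⟩
    have h4 := (Finset.card_le_card h).trans Finset.card_image_le
    simpa using h4

/-- the stars examined before time `T` -/
def Ext (m n : ℕ) (F : Finset Edg) (T : ℕ) (c : Cor) (z : Vtx) : Prop :=
  ∃ t < T, ex ((nx m n F)^[t] c) ∈ star m n z

def KK (m n : ℕ) (F : Finset Edg) (T : ℕ) (c : Cor) (U : Finset Vtx) : ℕ :=
  (U.filter fun z => Ext m n F T c z).card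

/-- a dangling edge at `z` on the interface -/
def Dg (m n : ℕ) (F : Finset Edg) (z : Vtx) : Prop :=
  ∃ c, ex c ∈ edges m n ∧ (par c).1 = z ∧ TT (nx m n F) (start m) c (par c) 4

def DK (m n : ℕ) (F : Finset Edg) (U : Finset Vtx) : ℕ := (U.filter fun z => Dg m n F z).card

theorem inner_end {e : Edg} (he : e ∈ edges m n) : ∃ z, z ∈ W m n 0 ∪ W m n 1 ∧
    e ∈ star m n z := by
  obtain ⟨x, y, b⟩ := e
  have he' := mem_edges.1 he
  cases b
  · simp only [Bool.false_eq_true, false_and, false_or, true_and] at he'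
    refine ⟨(x, y + 1), ?_, ?_⟩
    · rw [Finset.mem_union, mem_W, mem_W]
      simp only
      omega
    · rw [mem_star]
      exact ⟨he, Or.inr rfl⟩
  · simp only [true_and, Bool.true_eq_false, false_and, or_false] at he'
    refine ⟨(x + 1, y), ?_, ?_⟩
    · rw [Finset.mem_union, mem_W, mem_W]
      simp only
      omega
    · rw [mem_star]
      exact ⟨he, Or.inr rfl⟩

/-- for large times many stars are examined -/
theorem exists_time (hF : F ⊆ edges m n) (hm : 1 ≤ m) (hn : 1 ≤ n) : ∃ T0, ∀ T, T0 ≤ T →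
    m + n ≤ 8 * (KK m n F T (start m) (W m n 0) + KK m n F T (start m) (W m n 1)) := by
  obtain ⟨r, hr1, hr2⟩ := (good_nx hF).per (start_mem m n)
  refine ⟨r + 1, fun T hT => ?_⟩
  obtain ⟨h1, h2⟩ := card_EX hF hm hn
  have h3 : EX m n F ⊆ ((W m n 0 ∪ W m n 1).filter
      fun z => Ext m n F T (start m) z).biUnion (star m n) := by
    intro e he
    unfold EX at he
    rw [Finset.mem_filter] at he
    obtain ⟨he1, c, hc1, hc2⟩ := he
    obtain ⟨z, hz1, hz2⟩ := inner_end he1
    rw [Finset.mem_biUnion]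
    refine ⟨z, ?_, hz2⟩
    rw [Finset.mem_filter]
    refine ⟨hz1, ?_⟩
    obtain ⟨i, i1, i2, i3⟩ := R_of_per hr1 hr2 hc1
    exact ⟨i, by omega, by rw [i3, hc2]; exact hz2⟩
  have h4 := Finset.card_le_card h3
  have h5 := Finset.card_biUnion_le_card_mul ((W m n 0 ∪ W m n 1).filter
      fun z => Ext m n F T (start m) z) (star m n) 4 (fun z _ => card_star z)
  have h6 : ((W m n 0 ∪ W m n 1).filter fun z => Ext m n F T (start m) z).card ≤
      KK m n F T (start m) (W m n 0) + KK m n F T (start m) (W m n 1) := by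
    rw [Finset.filter_union]
    exact Finset.card_union_le _ _
  omega

end

end Q78.FKI
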