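import Pool.Agent.Q78.FKI.Wt

set_option autoImplicit false

/-! The exploration of the interface by stars. -/

namespace Q78.FKI

open Function H974 Finset Pool.Agent.Q297.FKL
open scoped Classical

noncomputable section

variable {m n : ℕ} {q : ℝ} {F : Finset Edg} {c d : Cor}

/-- the random edges at the vertex `z` -/
def star (m n : ℕ) (z : Vtx) : Finset Edg := (edges m n).filter fun e => src e = z ∨ tgt e = z

/-- the vertices off the wired sides, of one parity -/
def W (m n : ℕ) (b : ℤ) : Finset Vtx :=
  (Finset.Icc 1 (m : ℤ) ×ˢ Finset.Icc 1 (n : ℤ)).filter fun z => (z.1 + z.2) % 2 = b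

theorem mem_W {b : ℤ} {z : Vtx} : z ∈ W m n b ↔
    (1 ≤ z.1 ∧ z.1 ≤ m ∧ 1 ≤ z.2 ∧ z.2 ≤ n) ∧ (z.1 + z.2) % 2 = b := by
  unfold W
  rw [Finset.mem_filter, Finset.mem_product, Finset.mem_Icc, Finset.mem_Icc]
  tauto

theorem mem_star {z : Vtx} {e : Edg} : e ∈ star m n z ↔ e ∈ edges m n ∧ (src e = z ∨ tgt e = z) := by
  unfold star
  rw [Finset.mem_filter]

theorem star_sub (m n : ℕ) (z : Vtx) : star m n z ⊆ edges m n := Finset.filter_subset _ _

theorem card_star (z : Vtx) : (star m n z).card ≤ 4 := by
  have h : star m n z ⊆ (Finset.univ : Finset (Fin 4)).image (ed z) := by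
    intro e he
    rw [mem_star] at he
    rw [Finset.mem_image]
    obtain ⟨x, y, b⟩ := e
    obtain ⟨u, v⟩ := z
    rcases he.2 with h | h
    · cases b
      · refine ⟨1, Finset.mem_univ _, ?_⟩
        simp only [src_mk, Prod.mk.injEq] at h
        simp [ed, h.1, h.2]
      · refine ⟨0, Finset.mem_univ _, ?_⟩
        simp only [src_mk, Prod.mk.injEq] at h
        simp [ed, h.1, h.2]
    · cases b
      · refine ⟨3, Finset.mem_univ _, ?_⟩
        simp only [tgt_false, Prod.mk.injEq] at h
        simp [ed, ← h.1, ← h.2]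
      · refine ⟨2, Finset.mem_univ _, ?_⟩
        simp only [tgt_true, Prod.mk.injEq] at h
        simp [ed, ← h.1, ← h.2]
  refine (Finset.card_le_card h).trans ?_
  exact Finset.card_image_le.trans (by simp)

theorem star_disj {b : ℤ} {z w : Vtx} (hz : z ∈ W m n b) (hw : w ∈ W m n b) {e : Edg}
    (h1 : e ∈ star m n z) (h2 : e ∈ star m n w) : z = w := by
  rw [mem_star] at h1 h2
  rw [mem_W] at hz hw
  obtain ⟨x, y, t⟩ := e
  obtain ⟨z1, z2⟩ := z
  obtain ⟨w1, w2⟩ := w
  have h3 := h1.2
  have h4 := h2.2
  cases t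
  · simp only [src_mk, tgt_false, Prod.mk.injEq] at h3 h4 hz hw ⊢
    omega
  · simp only [src_mk, tgt_true, Prod.mk.injEq] at h3 h4 hz hw ⊢
    omega

/-- the edges of the stars of `U` -/
def UV (m n : ℕ) (U : Finset Vtx) : Finset Edg := U.biUnion (star m n)

theorem mem_UV {U : Finset Vtx} {e : Edg} : e ∈ UV m n U ↔ ∃ z ∈ U, e ∈ star m n z := by
  unfold UV
  rw [Finset.mem_biUnion]

/-- the configurations with given status of the edges outside the stars of `U` -/
def FS (m n : ℕ) (U : Finset Vtx) (O : Finset Edg) : Finset (Finset Edg) :=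
  (edges m n).powerset.filter fun F => F \ UV m n U = O

theorem mem_FS {U : Finset Vtx} {O : Finset Edg} : F ∈ FS m n U O ↔
    F ⊆ edges m n ∧ F \ UV m n U = O := by
  unfold FS
  rw [Finset.mem_filter, Finset.mem_powerset]

/-- the weight of the exploration -/
def wt (m n : ℕ) (F : Finset Edg) (lam rho : ℝ) : ℕ → Cor → Finset Vtx → ℝ
  | 0, _, _ => 1
  | T + 1, c, U =>
    if h : ∃ z ∈ U, ex c ∈ star m n z then
      (if F ∩ star m n h.choose = {ex c} then lam else 1) * rho⁻¹ *
        wt m n F lam rho T (nx m n F c) (U.erase h.choose)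
    else wt m n F lam rho T (nx m n F c) U

theorem nx_congr {G : Finset Edg} (h : ex c ∈ F ↔ ex c ∈ G) : nx m n F c = nx m n G c := by
  have h1 : ex c ∈ (↑F ∪ wired m n : Set Edg) ↔ ex c ∈ (↑G ∪ wired m n : Set Edg) := by
    rw [Set.mem_union, Set.mem_union, Finset.mem_coe, Finset.mem_coe, h]
  unfold nx nxt
  by_cases h2 : ex c ∈ (↑G ∪ wired m n : Set Edg)
  · rw [if_pos (h1.2 h2), if_pos h2]
  · rw [if_neg (fun h3 => h2 (h1.1 h3)), if_neg h2]

section energy

variable {B : ℝ} (hq : 0 < q) (hB1 : Real.sqrt q ≤ B) (hB2 : 1 / Real.sqrt q ≤ B) (hB : 1 ≤ B)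

include hq hB1 hB2 hB

theorem weight_sdiff (hF : F ⊆ edges m n) (X : Finset Edg) (hX : X ⊆ edges m n) :
    weight m n q F ≤ B ^ X.card * weight m n q (F \ X) := by
  have hB0 : 0 ≤ B := by linarith
  have hw : ∀ G, 0 ≤ weight m n q G := fun G => by unfold weight; positivity
  induction X using Finset.induction_on with
  | empty => simp
  | insert e X he ih =>
    have h1 := ih (fun f hf => hX (Finset.mem_insert_of_mem hf))
    have h2 : F \ insert e X = (F \ X).erase e := by
      ext f
      simp only [Finset.mem_sdiff, Finset.mem_insert, Finset.mem_erase]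
      tauto
    rw [Finset.card_insert_of_notMem he, h2, pow_succ]
    have h3 : weight m n q (F \ X) ≤ B * weight m n q ((F \ X).erase e) := by
      by_cases h4 : e ∈ F \ X
      · have h5 := weight_fl_le (m := m) (n := n) hq (F := F \ X) (Finset.sdiff_subset.trans hF)
          (hX (Finset.mem_insert_self e X)) hB1 hB2
        unfold fl at h5
        rwa [if_pos h4] at h5
      · rw [Finset.erase_eq_of_notMem h4]
        have := hw (F \ X)
        nlinarith
    calc weight m n q F ≤ B ^ X.card * weight m n q (F \ X) := h1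
      _ ≤ B ^ X.card * (B * weight m n q ((F \ X).erase e)) :=
          mul_le_mul_of_nonneg_left h3 (by positivity)
      _ = _ := by ring

theorem weight_star (hF : F ⊆ edges m n) {z : Vtx} {e : Edg} (he : e ∈ star m n z) :
    weight m n q F ≤ B ^ 5 * weight m n q (insert e (F \ star m n z)) := by
  have hB0 : 0 ≤ B := by linarith
  have hw : ∀ G, 0 ≤ weight m n q G := fun G => by unfold weight; positivity
  have h1 := weight_sdiff hq hB1 hB2 hB hF (star m n z) (star_sub m n z)
  have h2 : e ∉ F \ star m n z := fun h => (Finset.mem_sdiff.1 h).2 he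
  have h3 := weight_fl_le (m := m) (n := n) hq (F := F \ star m n z)
    (Finset.sdiff_subset.trans hF) (star_sub m n z he) hB1 hB2
  unfold fl at h3
  rw [if_neg h2] at h3
  have h4 : B ^ (star m n z).card ≤ B ^ 4 := pow_le_pow_right₀ hB (card_star z)
  calc weight m n q F ≤ B ^ (star m n z).card * weight m n q (F \ star m n z) := h1
    _ ≤ B ^ 4 * (B * weight m n q (insert e (F \ star m n z))) :=
        mul_le_mul h4 h3 (hw _) (by positivity)
    _ = _ := by ring

theorem fiber_le {b : ℤ} {U : Finset Vtx} (hU : U ⊆ W m n b) {z : Vtx} (hz : z ∈ U)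
    {O S1 : Finset Edg} (hO : Disjoint O (UV m n U)) (hS : S1 ⊆ star m n z) {e : Edg}
    (he : e ∈ star m n z) :
    ∑ F ∈ FS m n (U.erase z) (O ∪ S1), weight m n q F ≤
      B ^ 5 * ∑ F ∈ FS m n (U.erase z) (O ∪ {e}), weight m n q F := by
  have hw : ∀ G, 0 ≤ weight m n q G := fun G => by unfold weight; positivity
  have hB0 : 0 ≤ B := by linarith
  have hOz : ∀ f ∈ O, f ∉ star m n z := fun f hf hfz =>
    (Finset.disjoint_left.1 hO) hf (mem_UV.2 ⟨z, hz, hfz⟩)
  have hzU : ∀ f ∈ star m n z, f ∉ UV m n (U.erase z) := by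
    intro f hf hfU
    obtain ⟨w, hw1, hw2⟩ := mem_UV.1 hfU
    rw [Finset.mem_erase] at hw1
    exact hw1.1 (star_disj (hU hw1.2) (hU hz) hw2 hf)
  have hcap : ∀ F ∈ FS m n (U.erase z) (O ∪ S1), ∀ f ∈ star m n z, f ∈ F ↔ f ∈ S1 := by
    intro F hF f hf
    rw [mem_FS] at hF
    have h1 : f ∈ F \ UV m n (U.erase z) ↔ f ∈ O ∪ S1 := by rw [hF.2]
    rw [Finset.mem_sdiff, Finset.mem_union] at h1
    constructor
    · intro h2
      rcases h1.1 ⟨h2, hzU f hf⟩ with h3 | h3
      · exact absurd hf (hOz f h3)
      · exact h3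
    · intro h2
      exact (h1.2 (Or.inr h2)).1
  have h1 : ∀ F ∈ FS m n (U.erase z) (O ∪ S1), weight m n q F ≤
      B ^ 5 * weight m n q (insert e (F \ star m n z)) := fun F hF =>
    weight_star hq hB1 hB2 hB (mem_FS.1 hF).1 he
  refine (Finset.sum_le_sum h1).trans ?_
  rw [← Finset.mul_sum]
  refine mul_le_mul_of_nonneg_left ?_ (by positivity)
  have hinj : Set.InjOn (fun F => insert e (F \ star m n z))
      (↑(FS m n (U.erase z) (O ∪ S1)) : Set (Finset Edg)) := by
    intro F hF G hG h
    simp only at h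
    ext f
    by_cases hf : f ∈ star m n z
    · rw [hcap F hF f hf, hcap G hG f hf]
    · have h2 : f ≠ e := fun h3 => hf (h3 ▸ he)
      have h3 : f ∈ insert e (F \ star m n z) ↔ f ∈ insert e (G \ star m n z) := by rw [h]
      rw [Finset.mem_insert, Finset.mem_insert, Finset.mem_sdiff, Finset.mem_sdiff] at h3
      tauto
  rw [← Finset.sum_image (f := fun F => weight m n q F) hinj]
  refine Finset.sum_le_sum_of_subset_of_nonneg ?_ fun F _ _ => hw F
  intro G hG
  rw [Finset.mem_image] at hG
  obtain ⟨F, hF, rfl⟩ := hG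
  have hF' := mem_FS.1 hF
  rw [mem_FS]
  refine ⟨Finset.insert_subset (star_sub m n z he) (Finset.sdiff_subset.trans hF'.1), ?_⟩
  ext f
  have h1 : f ∈ F \ UV m n (U.erase z) ↔ f ∈ O ∪ S1 := by rw [hF'.2]
  rw [Finset.mem_sdiff, Finset.mem_union] at h1
  rw [Finset.mem_sdiff, Finset.mem_insert, Finset.mem_sdiff, Finset.mem_union,
    Finset.mem_singleton]
  constructor
  · rintro ⟨h2 | ⟨h2, h3⟩, h4⟩
    · exact Or.inr h2
    · rcases h1.1 ⟨h2, h4⟩ with h5 | h5
      · exact Or.inl h5
      · exact absurd (hS h5) h3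
  · rintro (h2 | rfl)
    · have h3 := h1.2 (Or.inl h2)
      exact ⟨Or.inr ⟨h3.1, hOz f h2⟩, h3.2⟩
    · exact ⟨Or.inl rfl, hzU f he⟩

/-- **the supermartingale of the exploration** -/
theorem super {b : ℤ} {lam rho : ℝ} (hlam0 : 0 ≤ lam) (hlam : lam ≤ 1) (hrho : 0 < rho)
    (hr : 1 - 1 / (16 * B ^ 5) * (1 - lam) ≤ rho) (T : ℕ) :
    ∀ (c : Cor) (U : Finset Vtx), U ⊆ W m n b → ∀ O : Finset Edg, Disjoint O (UV m n U) →
      ∑ F ∈ FS m n U O, weight m n q F * wt m n F lam rho T c U ≤
        ∑ F ∈ FS m n U O, weight m n q F := by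
  have hB0 : 0 < B := by linarith
  have hw : ∀ G, 0 ≤ weight m n q G := fun G => by unfold weight; positivity
  induction T with
  | zero =>
    intro c U _ O _
    simp [wt]
  | succ T ih =>
    intro c U hU O hO
    by_cases h : ∃ z ∈ U, ex c ∈ star m n z
    · obtain ⟨z, hz⟩ : ∃ z, z = h.choose := ⟨_, rfl⟩
      have hz1 : z ∈ U := by rw [hz]; exact h.choose_spec.1
      have hz2 : ex c ∈ star m n z := by rw [hz]; exact h.choose_spec.2
      have hOz : ∀ f ∈ O, f ∉ star m n z := fun f hf hfz =>
        (Finset.disjoint_left.1 hO) hf (mem_UV.2 ⟨z, hz1, hfz⟩)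
      have hzU : ∀ f ∈ star m n z, f ∉ UV m n (U.erase z) := by
        intro f hf hfU
        obtain ⟨w, hw1, hw2⟩ := mem_UV.1 hfU
        rw [Finset.mem_erase] at hw1
        exact hw1.1 (star_disj (hU hw1.2) (hU hz1) hw2 hf)
      have hUV : ∀ f, f ∈ UV m n U ↔ f ∈ star m n z ∨ f ∈ UV m n (U.erase z) := by
        intro f
        rw [mem_UV, mem_UV]
        constructor
        · rintro ⟨w, hw1, hw2⟩
          by_cases hwz : w = z
          · rw [hwz] at hw2; exact Or.inl hw2
          · exact Or.inr ⟨w, Finset.mem_erase.2 ⟨hwz, hw1⟩, hw2⟩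
        · rintro (hf | ⟨w, hw1, hw2⟩)
          · exact ⟨z, hz1, hf⟩
          · exact ⟨w, (Finset.mem_erase.1 hw1).2, hw2⟩
      have hfib : ∀ S1 ∈ (star m n z).powerset, (FS m n U O).filter (fun F => F ∩ star m n z = S1) =
          FS m n (U.erase z) (O ∪ S1) := by
        intro S1 hS1
        rw [Finset.mem_powerset] at hS1
        ext F
        rw [Finset.mem_filter, mem_FS, mem_FS]
        constructor
        · rintro ⟨⟨h1, h2⟩, h3⟩
          refine ⟨h1, ?_⟩
          ext f
          have h2' : f ∈ F \ UV m n U ↔ f ∈ O := by rw [h2]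
          have h3' : f ∈ F ∩ star m n z ↔ f ∈ S1 := by rw [h3]
          rw [Finset.mem_sdiff, hUV] at h2'
          rw [Finset.mem_inter] at h3'
          rw [Finset.mem_sdiff, Finset.mem_union, ← h2', ← h3']
          have := hzU f
          tauto
        · rintro ⟨h1, h2⟩
          have h2' : ∀ f, f ∈ F \ UV m n (U.erase z) ↔ f ∈ O ∪ S1 := fun f => by rw [h2]
          refine ⟨⟨h1, ?_⟩, ?_⟩
          · ext f
            have h3 := h2' f
            rw [Finset.mem_sdiff, Finset.mem_union] at h3
            rw [Finset.mem_sdiff, hUV]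
            have h4 := hOz f
            have h5 : f ∈ S1 → f ∈ star m n z := fun h => hS1 h
            tauto
          · ext f
            have h3 := h2' f
            rw [Finset.mem_sdiff, Finset.mem_union] at h3
            rw [Finset.mem_inter]
            have h4 := hOz f
            have h5 : f ∈ S1 → f ∈ star m n z := fun h => hS1 h
            have h6 := hzU f
            tauto
      have hmaps : ∀ F ∈ FS m n U O, F ∩ star m n z ∈ (star m n z).powerset :=
        fun F _ => Finset.mem_powerset.2 Finset.inter_subset_right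
      obtain ⟨Z, hZ⟩ : ∃ Z : Finset Edg → ℝ, ∀ S1, Z S1 =
        ∑ F ∈ FS m n (U.erase z) (O ∪ S1), weight m n q F := ⟨_, fun _ => rfl⟩
      have hZ0 : ∀ S1, 0 ≤ Z S1 := fun S1 => by
        rw [hZ]; exact Finset.sum_nonneg fun F _ => hw F
      have e1 : ∑ F ∈ FS m n U O, weight m n q F = ∑ S1 ∈ (star m n z).powerset, Z S1 := by
        rw [← Finset.sum_fiberwise_of_maps_to hmaps]
        refine Finset.sum_congr rfl fun S1 hS1 => ?_
        rw [hfib S1 hS1, hZ]
      have e2 : ∑ F ∈ FS m n U O, weight m n q F * wt m n F lam rho (T + 1) c U ≤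
          ∑ S1 ∈ (star m n z).powerset, (if S1 = {ex c} then lam else 1) * rho⁻¹ * Z S1 := by
        rw [← Finset.sum_fiberwise_of_maps_to hmaps]
        refine Finset.sum_le_sum fun S1 hS1 => ?_
        have hS1' := Finset.mem_powerset.1 hS1
        have e3 : ∀ F ∈ (FS m n U O).filter (fun F => F ∩ star m n z = S1),
            weight m n q F * wt m n F lam rho (T + 1) c U =
            (if S1 = {ex c} then lam else 1) * rho⁻¹ *
              (weight m n q F * wt m n F lam rho T (nx m n S1 c) (U.erase z)) := by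
          intro F hF
          rw [Finset.mem_filter] at hF
          have h4 : wt m n F lam rho (T + 1) c U =
              (if F ∩ star m n z = {ex c} then lam else 1) * rho⁻¹ *
              wt m n F lam rho T (nx m n F c) (U.erase z) := by
            rw [hz]
            rw [wt, dif_pos h]
          have h5 : nx m n F c = nx m n S1 c := by
            apply nx_congr
            rw [← hF.2, Finset.mem_inter]
            exact ⟨fun h6 => ⟨h6, hz2⟩, fun h6 => h6.1⟩
          rw [h4, hF.2, h5]
          ring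
        rw [Finset.sum_congr rfl e3, ← Finset.mul_sum, hfib S1 hS1]
        refine mul_le_mul_of_nonneg_left ?_ ?_
        · rw [hZ]
          apply ih _ _ ((Finset.erase_subset _ _).trans hU)
          rw [Finset.disjoint_union_left]
          constructor
          · rw [Finset.disjoint_left]
            intro f hf hf2
            exact (Finset.disjoint_left.1 hO) hf ((hUV f).2 (Or.inr hf2))
          · rw [Finset.disjoint_left]
            intro f hf hf2
            exact hzU f (hS1' hf) hf2
        · have : 0 ≤ rho⁻¹ := by positivity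
          split_ifs
          · positivity
          · positivity
      refine e2.trans ?_
      rw [e1]
      have hmem : ({ex c} : Finset Edg) ∈ (star m n z).powerset := by
        rw [Finset.mem_powerset, Finset.singleton_subset_iff]; exact hz2
      have e4 : ∑ S1 ∈ (star m n z).powerset, (if S1 = {ex c} then lam else 1) * rho⁻¹ * Z S1 =
          rho⁻¹ * (∑ S1 ∈ (star m n z).powerset, Z S1 - (1 - lam) * Z {ex c}) := by
        have e5 : ∀ S1 ∈ (star m n z).powerset, (if S1 = {ex c} then lam else 1) * rho⁻¹ * Z S1 =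
            rho⁻¹ * Z S1 - rho⁻¹ * ((1 - lam) * (if S1 = {ex c} then Z {ex c} else 0)) := by
          intro S1 _
          split_ifs with h7
          · rw [h7]; ring
          · ring
        rw [Finset.sum_congr rfl e5, Finset.sum_sub_distrib, ← Finset.mul_sum, ← Finset.mul_sum,
          ← Finset.mul_sum, Finset.sum_ite_eq' _ _ _, if_pos hmem]
        ring
      rw [e4]
      have e6 : ∑ S1 ∈ (star m n z).powerset, Z S1 ≤ 16 * B ^ 5 * Z {ex c} := by
        have e7 : ∀ S1 ∈ (star m n z).powerset, Z S1 ≤ B ^ 5 * Z {ex c} := by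
          intro S1 hS1
          rw [hZ, hZ]
          exact fiber_le hq hB1 hB2 hB hU hz1 hO (Finset.mem_powerset.1 hS1) hz2
        refine (Finset.sum_le_card_nsmul _ _ _ e7).trans ?_
        rw [nsmul_eq_mul, Finset.card_powerset]
        have e8 : ((2 ^ (star m n z).card : ℕ) : ℝ) ≤ 16 := by
          have : 2 ^ (star m n z).card ≤ 2 ^ 4 := Nat.pow_le_pow_right (by norm_num) (card_star z)
          exact_mod_cast this
        have := hZ0 {ex c}
        rw [mul_assoc]
        exact mul_le_mul_of_nonneg_right e8 (by positivity)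
      rw [inv_mul_le_iff₀ hrho]
      have e9 : 1 / (16 * B ^ 5) * ∑ S1 ∈ (star m n z).powerset, Z S1 ≤ Z {ex c} := by
        rw [one_div, inv_mul_le_iff₀ (by positivity)]
        exact e6
      have hs0 : 0 ≤ ∑ S1 ∈ (star m n z).powerset, Z S1 := Finset.sum_nonneg fun _ _ => hZ0 _
      have e10 := mul_le_mul_of_nonneg_right hr hs0
      have e11 := mul_le_mul_of_nonneg_left e9 (show 0 ≤ 1 - lam by linarith)
      nlinarith only [e10, e11]
    · have hcO : ∀ F ∈ FS m n U O, nx m n F c = nx m n O c := by
        intro F hF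
        rw [mem_FS] at hF
        apply nx_congr
        rw [← hF.2, Finset.mem_sdiff, mem_UV]
        exact ⟨fun h1 => ⟨h1, h⟩, fun h1 => h1.1⟩
      have e1 : ∀ F ∈ FS m n U O, weight m n q F * wt m n F lam rho (T + 1) c U =
          weight m n q F * wt m n F lam rho T (nx m n O c) U := by
        intro F hF
        rw [wt, dif_neg h, hcO F hF]
      rw [Finset.sum_congr rfl e1]
      exact ih _ U hU O hO

/-- the mean of the weight of the exploration is at most one -/
theorem super_fk {b : ℤ} {lam rho : ℝ} (hlam0 : 0 ≤ lam) (hlam : lam ≤ 1) (hrho : 0 < rho)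
    (hr : 1 - 1 / (16 * B ^ 5) * (1 - lam) ≤ rho) (T : ℕ) (c : Cor) :
    ∑ F ∈ (edges m n).powerset, fk m n q F * wt m n F lam rho T c (W m n b) ≤ 1 := by
  have hmaps : ∀ F ∈ (edges m n).powerset, F \ UV m n (W m n b) ∈ (edges m n).powerset :=
    fun F hF => Finset.mem_powerset.2 (Finset.sdiff_subset.trans (Finset.mem_powerset.1 hF))
  have hpos : 0 < ∑ G ∈ (edges m n).powerset, weight m n q G := by
    refine Finset.sum_pos (fun G _ => ?_) ⟨∅, Finset.mem_powerset.2 (Finset.empty_subset _)⟩
    unfold weight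
    have := Real.sqrt_pos.2 hq
    positivity
  have h1 : ∑ F ∈ (edges m n).powerset, weight m n q F * wt m n F lam rho T c (W m n b) ≤
      ∑ G ∈ (edges m n).powerset, weight m n q G := by
    have e1 := Finset.sum_fiberwise_of_maps_to hmaps
      (fun F => weight m n q F * wt m n F lam rho T c (W m n b))
    have e2 := Finset.sum_fiberwise_of_maps_to hmaps (fun F => weight m n q F)
    rw [← e1, ← e2]
    refine Finset.sum_le_sum fun O _ => ?_
    by_cases hO : Disjoint O (UV m n (W m n b))
    · exact super hq hB1 hB2 hB hlam0 hlam hrho hr T c (W m n b) (Finset.Subset.refl _) O hO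
    · have he : (edges m n).powerset.filter (fun F => F \ UV m n (W m n b) = O) = ∅ := by
        rw [Finset.eq_empty_iff_forall_notMem]
        intro F hF
        rw [Finset.mem_filter] at hF
        apply hO
        rw [← hF.2]
        exact Finset.sdiff_disjoint
      rw [he]
      simp
  have h2 : ∀ F ∈ (edges m n).powerset, fk m n q F * wt m n F lam rho T c (W m n b) =
      (weight m n q F * wt m n F lam rho T c (W m n b)) /
        ∑ G ∈ (edges m n).powerset, weight m n q G := by
    intro F _
    unfold fk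
    ring
  rw [Finset.sum_congr rfl h2, ← Finset.sum_div, div_le_one hpos]
  exact h1

end energy

end

end Q78.FKI
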