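import Pool.Agent.Q78.FKI.Orb

set_option autoImplicit false

/-! Contacts of the orbit of `s` with itself and with other orbits; the exchange at a contact. -/

namespace Q78.FKI

open Function
open scoped Classical

noncomputable section

variable {α : Type}

/-- `a` is on the orbit of `s` and `b` is reached from `a` after `r` steps, before `s` -/
def TT (f : α → α) (s a b : α) (r : ℕ) : Prop :=
  R f s a ∧ 1 ≤ r ∧ f^[r] a = b ∧ ∀ i, 1 ≤ i → i ≤ r → f^[i] a ≠ s

/-- `a` is on the orbit of `s`, and `b` is on another orbit of length `r` -/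
def UU (f : α → α) (s a b : α) (r : ℕ) : Prop :=
  R f s a ∧ ¬ R f s b ∧ 1 ≤ r ∧ f^[r] b = b ∧ ∀ i, 1 ≤ i → i < r → f^[i] b ≠ b

variable {f : α → α} {A : Finset α} {s a b : α} {r : ℕ}

theorem TT.right (h : TT f s a b r) : R f s b := by
  obtain ⟨h1, -, h2, -⟩ := h
  rw [← h2]
  exact h1.trans (R.iter a r)

theorem TT.mini (hf : Good f A) (hs : s ∈ A) (_hab : a ≠ b) (h : TT f s a b r) :
    ∀ i < r, f^[i] a ≠ b := by
  intro i hi he
  have hb := h.right
  obtain ⟨h1, h2, h3, h4⟩ := h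
  have hp : f^[r - i] b = b := by
    rw [← h3]
    conv_rhs => rw [← Nat.sub_add_cancel hi.le, iterate_add_apply, he]
    rw [h3]
  have hbs := hf.symm hs hb
  obtain ⟨j, j1, j2, j3⟩ := R_of_per (by omega) hp hbs
  rw [← he, ← iterate_add_apply] at j3
  exact h4 (j + i) (by omega) (by omega) j3

theorem TT.uniq (hf : Good f A) (hs : s ∈ A) (hab : a ≠ b) {r' : ℕ} (h : TT f s a b r)
    (h' : TT f s a b r') : r = r' := by
  have h1 := h.mini hf hs hab
  have h2 := h'.mini hf hs hab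
  rcases lt_trichotomy r r' with hl | hl | hl
  · exact absurd h.2.2.1 (h2 r hl)
  · exact hl
  · exact absurd h'.2.2.1 (h1 r' hl)

theorem UU.uniq {r' : ℕ} (h : UU f s a b r) (h' : UU f s a b r') : r = r' := by
  obtain ⟨-, -, h1, h2, h3⟩ := h
  obtain ⟨-, -, k1, k2, k3⟩ := h'
  rcases lt_trichotomy r r' with hl | hl | hl
  · exact absurd h2 (k3 r h1 hl)
  · exact hl
  · exact absurd k2 (h3 r' k1 hl)

theorem TT.seg (hf : Good f A) (hs : s ∈ A) (hab : a ≠ b) (h : TT f s a b r) :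
    ∀ i, 1 ≤ i → i ≤ r → (swp f a b)^[i] b = f^[i] a :=
  seg1 (min_seg hab h.2.2.1 (h.mini hf hs hab)).2

theorem TT.flip (hf : Good f A) (hs : s ∈ A) (hb : b ∈ A) (ha : a ∈ A) (hab : a ≠ b)
    (hsa : s ≠ a) (h : TT f s a b r) : UU (swp f a b) s a b r := by
  have hseg := h.seg hf hs hab
  have hmin := h.mini hf hs hab
  obtain ⟨h1, h2, h3, h4⟩ := h
  have hg := hf.swp ha hb
  have hper : (swp f a b)^[r] b = b := by rw [hseg r h2 le_rfl, h3]
  refine ⟨?_, ?_, h2, hper, ?_⟩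
  · obtain ⟨t, t1, t2⟩ := first h1
    have key : ∀ i < t, f^[i] s ≠ a ∧ f^[i] s ≠ b := by
      intro i hi
      refine ⟨t2 i hi, fun he => ?_⟩
      have e1 : f^[t - i] b = a := by
        rw [← he, ← iterate_add_apply, Nat.sub_add_cancel hi.le, t1]
      have e2 : f^[(t - i) + r] a = a := by
        rw [iterate_add_apply, h3, e1]
      obtain ⟨j, j1, j2, j3⟩ := R_of_per (by omega) e2 (hf.symm hs h1)
      have j4 : r < j := by
        by_contra hh
        exact h4 j j1 (by omega) j3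
      have e3 : f^[j - r + i] s = s := by
        rw [iterate_add_apply, he, ← h3, ← iterate_add_apply, Nat.sub_add_cancel j4.le, j3]
      rcases Nat.lt_or_ge (j - r + i) t with hw | hw
      · apply t2 (t - (j - r + i)) (by omega)
        rw [← t1]
        conv_rhs => rw [← Nat.sub_add_cancel hw.le, iterate_add_apply, e3]
      · have : j - r + i = t := by omega
        rw [this, t1] at e3
        exact hsa e3.symm
    exact ⟨t, by rw [seg0 key t le_rfl, t1]⟩
  · intro hh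
    obtain ⟨i, i1, i2, i3⟩ := R_of_per h2 hper (hg.symm hs hh)
    rw [hseg i i1 i2] at i3
    exact h4 i i1 i2 i3
  · intro i i1 i2
    rw [hseg i i1 i2.le]
    exact hmin i i2

theorem UU.flip (hf : Good f A) (hs : s ∈ A) (hb : b ∈ A) (h : UU f s a b r) :
    TT (swp f a b) s a b r := by
  obtain ⟨h1, h2, h3, h4, h5⟩ := h
  have ha : a ∈ A := hf.memR hs h1
  have hba : ¬ R f b a := fun hh => h2 (h1.trans (hf.symm hb hh))
  have hseg : ∀ i, 1 ≤ i → i ≤ r → (swp f a b)^[i] a = f^[i] b := by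
    rw [swp_comm]
    exact seg1 fun i i1 i2 => ⟨h5 i i1 i2, fun hh => hba ⟨i, hh⟩⟩
  refine ⟨?_, h3, by rw [hseg r h3 le_rfl, h4], ?_⟩
  · obtain ⟨t, t1, t2⟩ := first h1
    refine ⟨t, ?_⟩
    rw [seg0 (fun i hi => ⟨t2 i hi, fun hh => h2 ⟨i, hh⟩⟩) t le_rfl, t1]
  · intro i i1 i2 he
    rw [hseg i i1 i2] at he
    exact h2 (hf.symm hb ⟨i, he⟩)

/-- the two kinds of contact are exchanged -/
theorem flip_iff (hf : Good f A) (hs : s ∈ A) (ha : a ∈ A) (hb : b ∈ A) (hab : a ≠ b)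
    (hsa : s ≠ a) : TT f s a b r ↔ UU (swp f a b) s a b r := by
  constructor
  · exact TT.flip hf hs hb ha hab hsa
  · intro h
    have := h.flip (hf.swp ha hb) hs hb
    rwa [swp_swp] at this

/-- the cut off part -/
def Cut (f : α → α) (a : α) (r : ℕ) (x : α) : Prop := ∃ i, 1 ≤ i ∧ i ≤ r ∧ f^[i] a = x

theorem cut_iff (hf : Good f A) (hs : s ∈ A) (hab : a ≠ b) (h : TT f s a b r) {x : α} :
    R (swp f a b) b x ↔ Cut f a r x := by
  have hseg := h.seg hf hs hab
  have h2 := h.2.1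
  have hper : (swp f a b)^[r] b = b := by rw [hseg r h2 le_rfl, h.2.2.1]
  constructor
  · intro hx
    obtain ⟨i, i1, i2, i3⟩ := R_of_per h2 hper hx
    exact ⟨i, i1, i2, by rw [← hseg i i1 i2, i3]⟩
  · rintro ⟨i, i1, i2, i3⟩
    exact ⟨i, by rw [hseg i i1 i2, i3]⟩

theorem on_iff (hf : Good f A) (hs : s ∈ A) (ha : a ∈ A) (hb : b ∈ A) (hab : a ≠ b) (hsa : s ≠ a)
    (h : TT f s a b r) {x : α} (hx : x ∈ A) :
    R (swp f a b) s x ↔ R f s x ∧ ¬ Cut f a r x := by
  have hg := hf.swp ha hb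
  have hU := h.flip hf hs hb ha hab hsa
  have hn : ¬ R (swp f a b) a b := fun hh => hU.2.1 (hU.1.trans hh)
  have h1 := hg.hins ha hb hn hs hx
  rw [swp_swp] at h1
  rw [h1, ← cut_iff hf hs hab h]
  constructor
  · intro h2
    exact ⟨Or.inl h2, fun h3 => hU.2.1 (h2.trans (hg.symm hb h3))⟩
  · rintro ⟨h2 | ⟨-, h2⟩ | ⟨h2, -⟩, h3⟩
    · exact h2
    · exact absurd h2 h3
    · exact absurd h2 hU.2.1

variable {c d : α} {k l : ℕ}

theorem TT_same (hf : Good f A) (hs : s ∈ A) (ha : a ∈ A) (hb : b ∈ A) (hab : a ≠ b)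
    (hsa : s ≠ a) (h : TT f s a b r) (hc : c ∈ A) (hcL : ¬ Cut f a r c)
    (hP : ∀ i < l, f^[i] c ≠ a) (hk : k ≤ l) :
    TT f s c d k ↔ TT (swp f a b) s c d k := by
  have hg := hf.swp ha hb
  have hU := h.flip hf hs hb ha hab hsa
  constructor
  · rintro ⟨h1, h2, h3, h4⟩
    have hseg : ∀ i ≤ k, (swp f a b)^[i] c = f^[i] c := by
      refine seg0 fun i hi => ⟨hP i (by omega), fun he => ?_⟩
      rw [← h.2.2.1] at he
      rcases Nat.lt_or_ge i r with hr | hr
      · apply hcL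
        refine ⟨r - i, by omega, by omega, ?_⟩
        apply hf.inj.iterate i
        rw [← iterate_add_apply, Nat.add_sub_cancel' hr.le, he]
      · apply hP (i - r) (by omega)
        apply hf.inj.iterate r
        rw [← iterate_add_apply, Nat.add_sub_cancel' hr, he]
    refine ⟨(on_iff hf hs ha hb hab hsa h hc).2 ⟨h1, hcL⟩, h2, by rw [hseg k le_rfl, h3], ?_⟩
    intro i i1 i2
    rw [hseg i i2]
    exact h4 i i1 i2
  · rintro ⟨h1, h2, h3, h4⟩
    have hnb : ∀ i, (swp f a b)^[i] c ≠ b := fun i he => hU.2.1 (h1.trans ⟨i, he⟩)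
    have hna : ∀ i < k, (swp f a b)^[i] c ≠ a := by
      intro i hi he
      obtain ⟨t, t1, t2⟩ := first (⟨i, he⟩ : R (swp f a b) c a)
      have ht : t ≤ i := by
        by_contra hh
        exact t2 i (by omega) he
      have := seg0 (f := swp f a b) (a := a) (b := b) (x := c) (n := t)
        (fun j hj => ⟨t2 j hj, hnb j⟩) t le_rfl
      rw [swp_swp, t1] at this
      exact hP t (by omega) this
    have hseg := seg0 (f := swp f a b) (a := a) (b := b) (x := c) (n := k)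
      (fun j hj => ⟨hna j hj, hnb j⟩)
    rw [swp_swp] at hseg
    refine ⟨((on_iff hf hs ha hb hab hsa h hc).1 h1).1, h2, by rw [hseg k le_rfl, h3], ?_⟩
    intro i i1 i2
    rw [hseg i i2]
    exact h4 i i1 i2

theorem UU_same (hf : Good f A) (hs : s ∈ A) (ha : a ∈ A) (hb : b ∈ A) (hab : a ≠ b)
    (hsa : s ≠ a) (h : TT f s a b r) (hc : c ∈ A) (hd : d ∈ A) (hcL : ¬ Cut f a r c)
    (hdL : ¬ Cut f a r d) : UU f s c d k ↔ UU (swp f a b) s c d k := by
  have hg := hf.swp ha hb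
  have hU := h.flip hf hs hb ha hab hsa
  constructor
  · rintro ⟨h1, h2, h3, h4, h5⟩
    have hna : ¬ R f d a := fun hh => h2 (h.1.trans (hf.symm hd hh))
    have hnb : ¬ R f d b := fun hh => h2 (h.right.trans (hf.symm hd hh))
    have hseg := fun n => seg0 (f := f) (a := a) (b := b) (x := d) (n := n)
      (fun j _ => ⟨fun hh => hna ⟨j, hh⟩, fun hh => hnb ⟨j, hh⟩⟩) n le_rfl
    refine ⟨(on_iff hf hs ha hb hab hsa h hc).2 ⟨h1, hcL⟩, fun hh =>
      h2 ((on_iff hf hs ha hb hab hsa h hd).1 hh).1, h3, by rw [hseg, h4], ?_⟩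
    intro i i1 i2
    rw [hseg]
    exact h5 i i1 i2
  · rintro ⟨h1, h2, h3, h4, h5⟩
    have hna : ¬ R (swp f a b) d a := fun hh => h2 (hU.1.trans (hg.symm hd hh))
    have hnb : ¬ R (swp f a b) d b := fun hh => hdL ((cut_iff hf hs hab h).1 (hg.symm hd hh))
    have hseg := fun n => seg0 (f := swp f a b) (a := a) (b := b) (x := d) (n := n)
      (fun j _ => ⟨fun hh => hna ⟨j, hh⟩, fun hh => hnb ⟨j, hh⟩⟩) n le_rfl
    rw [swp_swp] at hseg
    refine ⟨((on_iff hf hs ha hb hab hsa h hc).1 h1).1, fun hh =>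
      h2 ((on_iff hf hs ha hb hab hsa h hd).2 ⟨hh, hdL⟩), h3, by rw [hseg, h4], ?_⟩
    intro i i1 i2
    rw [hseg]
    exact h5 i i1 i2

theorem TT_seg (hf : Good f A) (h : TT f s a b r) (hcL : ¬ Cut f a r c)
    (hP : ∀ i < l, f^[i] c ≠ a) (hk : k ≤ l) : ∀ i ≤ k, (swp f a b)^[i] c = f^[i] c := by
  refine seg0 fun i hi => ⟨hP i (by omega), fun he => ?_⟩
  rw [← h.2.2.1] at he
  rcases Nat.lt_or_ge i r with hr | hr
  · apply hcL
    refine ⟨r - i, by omega, by omega, ?_⟩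
    apply hf.inj.iterate i
    rw [← iterate_add_apply, Nat.add_sub_cancel' hr.le, he]
  · apply hP (i - r) (by omega)
    apply hf.inj.iterate r
    rw [← iterate_add_apply, Nat.add_sub_cancel' hr, he]

theorem UU_seg (hf : Good f A) (h : TT f s a b r) (hd : d ∈ A) (h2 : ¬ R f s d) :
    ∀ i, (swp f a b)^[i] d = f^[i] d := by
  have hna : ¬ R f d a := fun hh => h2 (h.1.trans (hf.symm hd hh))
  have hnb : ¬ R f d b := fun hh => h2 (h.right.trans (hf.symm hd hh))
  exact fun n => seg0 (f := f) (a := a) (b := b) (x := d) (n := n)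
    (fun j _ => ⟨fun hh => hna ⟨j, hh⟩, fun hh => hnb ⟨j, hh⟩⟩) n le_rfl

/-- the next `r` points -/
def pth (f : α → α) (a : α) (r : ℕ) : List α := (List.range r).map fun i => f^[i + 1] a

theorem length_pth (f : α → α) (a : α) (r : ℕ) : (pth f a r).length = r := by
  unfold pth
  rw [List.length_map, List.length_range]

theorem pth_congr {g : α → α} {a b : α} {r : ℕ} (h : ∀ i, 1 ≤ i → i ≤ r → f^[i] a = g^[i] b) :
    pth f a r = pth g b r := by
  unfold pth
  apply List.map_congr_left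
  intro i hi
  rw [List.mem_range] at hi
  exact h (i + 1) (by omega) (by omega)

/-- contact of the orbit of `s` with itself which closes the loop `l` -/
def SL (f : α → α) (s a b : α) (l : List α) : Prop :=
  TT f s a b l.length ∧ pth f a l.length = l

/-- contact with the loop `l` -/
def TL (f : α → α) (s a b : α) (l : List α) : Prop :=
  UU f s a b l.length ∧ pth f b l.length = l

theorem SL_flip (hf : Good f A) (hs : s ∈ A) (ha : a ∈ A) (hb : b ∈ A) (hab : a ≠ b)
    (hsa : s ≠ a) {l : List α} : SL f s a b l ↔ TL (swp f a b) s a b l := by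
  unfold SL TL
  rw [← flip_iff hf hs ha hb hab hsa]
  constructor
  · rintro ⟨h1, h2⟩
    exact ⟨h1, by rw [pth_congr (h1.seg hf hs hab), h2]⟩
  · rintro ⟨h1, h2⟩
    exact ⟨h1, by rw [← pth_congr (h1.seg hf hs hab), h2]⟩

theorem SL_same (hf : Good f A) (hs : s ∈ A) (ha : a ∈ A) (hb : b ∈ A) (hab : a ≠ b)
    (hsa : s ≠ a) (h : TT f s a b r) (hc : c ∈ A) (hcL : ¬ Cut f a r c)
    (hP : ∀ i < k, f^[i] c ≠ a) {l : List α} (hk : l.length ≤ k) :
    SL f s c d l ↔ SL (swp f a b) s c d l := by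
  unfold SL
  rw [← TT_same hf hs ha hb hab hsa h hc hcL hP hk,
    pth_congr (f := swp f a b) (g := f) (b := c) fun i _ i2 => TT_seg hf h hcL hP hk i i2]

theorem TL_same (hf : Good f A) (hs : s ∈ A) (ha : a ∈ A) (hb : b ∈ A) (hab : a ≠ b)
    (hsa : s ≠ a) (h : TT f s a b r) (hc : c ∈ A) (hd : d ∈ A) (hcL : ¬ Cut f a r c)
    (hdL : ¬ Cut f a r d) {l : List α} : TL f s c d l ↔ TL (swp f a b) s c d l := by
  unfold TL
  rw [← UU_same hf hs ha hb hab hsa h hc hd hcL hdL]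
  constructor
  · rintro ⟨h1, h2⟩
    exact ⟨h1, by rw [pth_congr fun i _ _ => UU_seg hf h hd h1.2.1 i, h2]⟩
  · rintro ⟨h1, h2⟩
    exact ⟨h1, by rw [← pth_congr (f := swp f a b) fun i _ _ => UU_seg hf h hd h1.2.1 i, h2]⟩

end

end Q78.FKI
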