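import Pool.Agent.Q78.FKI.Cor

set_option autoImplicit false

/-! Euler's formula: the number of loops. -/

namespace Q78.FKI

open Function H974 Finset Pool.Agent.Q297.FKL
open scoped Classical

noncomputable section

theorem R_inv {α β : Type} {f : α → α} {A : Finset α} (hf : Good f A) (Φ : α → β)
    (h : ∀ x ∈ A, Φ (f x) = Φ x) {x y : α} (hx : x ∈ A) (hxy : R f x y) : Φ y = Φ x := by
  obtain ⟨t, rfl⟩ := hxy
  induction t with
  | zero => rfl
  | succ t ih => rw [iterate_succ_apply', h _ (hf.iter hx t), ih]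

theorem nor_ge {α β : Type} {f : α → α} {A : Finset α} (hf : Good f A) (Φ : α → β)
    (h : ∀ x ∈ A, Φ (f x) = Φ x) : (Φ '' (A : Set α)).ncard ≤ nor f A := by
  rcases A.eq_empty_or_nonempty with h0 | ⟨x0, hx0⟩
  · rw [h0]; simp
  · obtain ⟨Ψ, hΨ⟩ : ∃ Ψ : Set α → β, ∀ x ∈ A, Ψ (orb f x) = Φ x := by
      refine ⟨fun O => if h : ∃ x ∈ A, orb f x = O then Φ h.choose else Φ x0, fun x hx => ?_⟩
      have he : ∃ y ∈ A, orb f y = orb f x := ⟨x, hx, rfl⟩
      beta_reduce
      rw [dif_pos he]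
      have h1 := he.choose_spec
      have h2 := (hf.orb_iff h1.1).1 h1.2
      exact (R_inv hf Φ h h1.1 h2).symm
    have h1 : (Φ '' (A : Set α)) = Ψ '' (orb f '' (A : Set α)) := by
      rw [Set.image_image]
      exact Set.image_congr fun x hx => (hΨ x hx).symm
    rw [h1]
    exact Set.ncard_image_le (A.finite_toSet.image _)

theorem nor_le {α β : Type} {f : α → α} {A : Finset α} (hf : Good f A) (Φ : α → β)
    (h : ∀ x ∈ A, ∀ y ∈ A, Φ x = Φ y → R f x y) : nor f A ≤ (Φ '' (A : Set α)).ncard := by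
  rcases A.eq_empty_or_nonempty with h0 | ⟨x0, hx0⟩
  · rw [h0]; simp [nor]
  · obtain ⟨Ψ, hΨ⟩ : ∃ Ψ : β → Set α, ∀ x ∈ A, Ψ (Φ x) = orb f x := by
      refine ⟨fun b => if h : ∃ x ∈ A, Φ x = b then orb f h.choose else ∅, fun x hx => ?_⟩
      have he : ∃ y ∈ A, Φ y = Φ x := ⟨x, hx, rfl⟩
      beta_reduce
      rw [dif_pos he]
      have h1 := he.choose_spec
      exact hf.orb_eq h1.1 (h _ h1.1 x hx h1.2)
    have h1 : (orb f '' (A : Set α)) = Ψ '' (Φ '' (A : Set α)) := by
      rw [Set.image_image]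
      exact Set.image_congr fun x hx => (hΨ x hx).symm
    unfold nor
    rw [h1]
    exact Set.ncard_image_le (A.finite_toSet.image _)

/-- the wired edges -/
def wF (m n : ℕ) : Finset Edg :=
  (Finset.Ico 0 (m : ℤ)).image (fun x => ((x, 0, true) : Edg)) ∪
    (Finset.Ico 0 (n : ℤ)).image (fun y => ((0, y, false) : Edg))

theorem coe_wF (m n : ℕ) : (↑(wF m n) : Set Edg) = wired m n := by
  ext ⟨x, y, b⟩
  rw [mem_wired, Finset.mem_coe]
  unfold wF
  simp only [Finset.mem_union, Finset.mem_image, Finset.mem_Ico, Prod.mk.injEq]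
  constructor
  · rintro (⟨a, h, rfl, rfl, rfl⟩ | ⟨a, h, rfl, rfl, rfl⟩)
    · exact Or.inl ⟨rfl, rfl, h.1, h.2⟩
    · exact Or.inr ⟨rfl, rfl, h.1, h.2⟩
  · rintro (⟨rfl, rfl, h1, h2⟩ | ⟨rfl, rfl, h1, h2⟩)
    · exact Or.inl ⟨x, ⟨h1, h2⟩, rfl, rfl, rfl⟩
    · exact Or.inr ⟨y, ⟨h1, h2⟩, rfl, rfl, rfl⟩

theorem card_wF (m n : ℕ) : (wF m n).card = m + n := by
  unfold wF
  rw [Finset.card_union_of_disjoint, Finset.card_image_of_injective, Finset.card_image_of_injective]
  · simp
  · intro a b h; simpa using h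
  · intro a b h; simpa using h
  · rw [Finset.disjoint_left]
    intro e h1 h2
    rw [Finset.mem_image] at h1 h2
    obtain ⟨a, _, rfl⟩ := h1
    obtain ⟨b, _, h⟩ := h2
    simp at h

theorem disj_wF (m n : ℕ) : Disjoint (edges m n) (wF m n) := by
  rw [Finset.disjoint_left]
  rintro ⟨x, y, b⟩ h1 h2
  have h3 : (x, y, b) ∈ wired m n := by rw [← coe_wF]; exact h2
  rw [mem_edges] at h1
  rw [mem_wired] at h3
  rcases h1 with ⟨h, h1⟩ | ⟨h, h1⟩ <;> rcases h3 with ⟨h', h3⟩ | ⟨h', h3⟩
  · omega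
  · rw [h] at h'; simp at h'
  · rw [h] at h'; simp at h'
  · omega

/-- all edges of the rectangle -/
def full (m n : ℕ) : Finset Edg := edges m n ∪ wF m n

theorem card_full (m n : ℕ) : (full m n).card = 2 * (m * n) + (m + n) := by
  unfold full
  rw [Finset.card_union_of_disjoint (disj_wF m n), card_edges, card_wF]

theorem card_verts (m n : ℕ) : (verts m n).card = (m + 1) * (n + 1) := by
  unfold verts
  rw [Finset.card_product]
  simp only [Int.card_Icc]
  have h1 : ((m : ℤ) + 1 - 0).toNat = m + 1 := by omega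
  have h2 : ((n : ℤ) + 1 - 0).toNat = n + 1 := by omega
  rw [h1, h2]

theorem mem_full {m n : ℕ} {e : Edg} : e ∈ full m n ↔ src e ∈ verts m n ∧ tgt e ∈ verts m n := by
  obtain ⟨x, y, b⟩ := e
  have h : (x, y, b) ∈ full m n ↔ (x, y, b) ∈ edges m n ∨ (x, y, b) ∈ wired m n := by
    unfold full
    rw [Finset.mem_union, ← coe_wF, Finset.mem_coe]
  rw [h, mem_edges, mem_wired]
  cases b
  · simp only [src_mk, tgt_false, mem_verts]
    simp only [Bool.false_eq_true, false_and, false_or, true_and]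
    omega
  · simp only [src_mk, tgt_true, mem_verts]
    simp only [true_and, Bool.true_eq_false, false_and, or_false]
    omega

theorem good_full {m n : ℕ} {G : Finset Edg} (hG : G ⊆ full m n) :
    Good (nxt (↑G)) (CA (verts m n)) := good fun _ he => mem_full.1 (hG he)

/-- a corner before the edge -/
def cor0 (e : Edg) : Cor := (src e, if e.2.2 then 3 else 0)

theorem ex_cor0 (e : Edg) : ex (cor0 e) = e := by
  obtain ⟨x, y, b⟩ := e
  cases b <;> simp [ex, cor0, ed]

theorem ex_mem {m n : ℕ} {c : Cor} (h : ex c ∈ full m n) :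
    c ∈ CA (verts m n) ∧ par c ∈ CA (verts m n) := by
  rw [mem_full] at h
  rw [mem_CA, mem_CA]
  have h0 : (par c).1 = nb c.1 (c.2 + 1) := rfl
  rw [h0]
  rcases ends_ex c with ⟨h1, h2⟩ | ⟨h1, h2⟩
  · rw [h1, h2] at h; exact h
  · rw [h1, h2] at h; exact h.symm

/-- the genus (twice) -/
def gen (m n : ℕ) (G : Finset Edg) : ℤ :=
  G.card + 2 * ncl (verts m n) ↑G - (verts m n).card - nor (nxt ↑G) (CA (verts m n))

theorem gen_step {m n : ℕ} {G : Finset Edg} (hG : G ⊆ full m n) {e : Edg} (he : e ∈ full m n)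
    (heG : e ∉ G) : gen m n G ≤ gen m n (insert e G) := by
  have hf := good_full hG
  obtain ⟨a, ha⟩ : ∃ a, a = cor0 e := ⟨_, rfl⟩
  have hex : ex a = e := by rw [ha]; exact ex_cor0 e
  have hmem := ex_mem (m := m) (n := n) (c := a) (by rw [hex]; exact he)
  have hins : nxt (↑(insert e G) : Set Edg) = swp (nxt ↑G) a (par a) := by
    rw [Finset.coe_insert, ← hex]
    exact nxt_insert (by rw [hex]; exact fun h => heG h)
  have hends := mem_full.1 he
  unfold gen
  rw [Finset.card_insert_of_notMem heG, hins]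
  by_cases hr : Reach (↑G) (src e) (tgt e)
  · have h1 : ncl (verts m n) (↑(insert e G) : Set Edg) = ncl (verts m n) ↑G := by
      rw [Finset.coe_insert]; exact ncl_same _ hr
    rw [h1]
    by_cases hR : R (nxt (↑G : Set Edg)) a (par a)
    · have := hf.nor_split hmem.1 hmem.2 (par_ne a).symm hR
      rw [this]
      push_cast
      omega
    · have := hf.nor_merge hmem.1 hmem.2 hR
      rw [this]
      push_cast
      omega
  · have h1 : ncl (verts m n) (↑G : Set Edg) = ncl (verts m n) (↑(insert e G) : Set Edg) + 1 := by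
      rw [Finset.coe_insert]; exact ncl_merge hr hends.1 hends.2
    have hR : ¬ R (nxt (↑G : Set Edg)) a (par a) := by
      intro hh
      apply hr
      rw [← hex]
      exact reach_ex (reach_R hh)
    have := hf.nor_merge hmem.1 hmem.2 hR
    rw [this, h1]
    push_cast
    omega

theorem gen_mono {m n : ℕ} {G : Finset Edg} (hG : G ⊆ full m n) (X : Finset Edg)
    (hX : X ⊆ full m n) : gen m n G ≤ gen m n (X ∪ G) := by
  induction X using Finset.induction_on with
  | empty => simp
  | insert e X he ih =>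
    have h1 := ih (fun f hf => hX (Finset.mem_insert_of_mem hf))
    have h2 : e ∈ full m n := hX (Finset.mem_insert_self e X)
    rw [Finset.insert_union]
    by_cases h3 : e ∈ X ∪ G
    · rw [Finset.insert_eq_of_mem h3]; exact h1
    · refine h1.trans (gen_step ?_ h2 h3)
      exact Finset.union_subset (fun f hf => hX (Finset.mem_insert_of_mem hf)) hG

theorem R_rot (S : Set Edg) (hS : S = ∅) (v : Vtx) (k l : Fin 4) : R (nxt S) (v, k) (v, l) := by
  have h : ∀ k : Fin 4, nxt S (v, k) = (v, k + 1) := by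
    intro k
    unfold nxt
    rw [if_neg (by rw [hS]; exact Set.notMem_empty _)]
  have h1 : ∀ k : Fin 4, R (nxt S) (v, k) (v, k + 1) := fun k => ⟨1, h k⟩
  have h0 : ∀ k : Fin 4, R (nxt S) (v, k) (v, k) := fun k => R.refl _
  have h2 : ∀ k : Fin 4, R (nxt S) (v, k) (v, k + 1 + 1) := fun k => (h1 k).trans (h1 _)
  have h3 : ∀ k : Fin 4, R (nxt S) (v, k) (v, k + 1 + 1 + 1) := fun k => (h2 k).trans (h1 _)
  have : l = k ∨ l = k + 1 ∨ l = k + 1 + 1 ∨ l = k + 1 + 1 + 1 := by
    revert k l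
    decide
  rcases this with rfl | rfl | rfl | rfl
  · exact h0 _
  · exact h1 k
  · exact h2 k
  · exact h3 k

theorem ncl_empty (V : Finset Vtx) : ncl V (∅ : Set Edg) = V.card := by
  unfold ncl
  have h : ∀ u w : Vtx, Reach (∅ : Set Edg) u w → u = w := by
    intro u w hh
    induction hh with
    | refl => rfl
    | tail _ hs ih =>
      obtain ⟨f, hf, _⟩ := hs
      exact absurd hf (Set.notMem_empty _)
  rw [Set.InjOn.ncard_image, Set.ncard_coe_finset]
  intro u _ w _ he
  exact h u w (cl_eq_iff.1 he)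

theorem gen_empty (m n : ℕ) : 0 ≤ gen m n ∅ := by
  unfold gen
  rw [Finset.coe_empty, ncl_empty]
  have h1 := nor_le (good_full (m := m) (n := n) (Finset.empty_subset _)) (Φ := fun c : Cor => c.1)
    (by
      rintro ⟨v, k⟩ _ ⟨w, l⟩ _ h
      simp only at h
      subst h
      rw [Finset.coe_empty]
      exact R_rot ∅ rfl v k l)
  rw [Finset.coe_empty] at h1
  have h2 : ((fun c : Cor => c.1) '' (↑(CA (verts m n)) : Set Cor)).ncard ≤
      (verts m n).card := by
    rw [← Set.ncard_coe_finset]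
    apply Set.ncard_le_ncard _ (Finset.finite_toSet _)
    rintro v ⟨c, hc, rfl⟩
    exact mem_CA.1 hc
  simp only [Finset.card_empty]
  push_cast
  omega

/-- the face at a corner -/
def fc (c : Cor) : ℤ × ℤ :=
  ![(c.1.1, c.1.2), (c.1.1 - 1, c.1.2), (c.1.1 - 1, c.1.2 - 1), (c.1.1, c.1.2 - 1)] c.2

def fo (m n : ℕ) (c : Cor) : Option (ℤ × ℤ) :=
  if 0 ≤ (fc c).1 ∧ (fc c).1 < m ∧ 0 ≤ (fc c).2 ∧ (fc c).2 < n then some (fc c) else none

theorem fc_open (c : Cor) : fc (rot (par c)) = fc c := by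
  obtain ⟨⟨x, y⟩, k⟩ := c
  fin_cases k <;> simp [par, rot, fc, nb]

theorem fo_inv {m n : ℕ} {c : Cor} (_hc : c ∈ CA (verts m n)) :
    fo m n (nxt (↑(full m n)) c) = fo m n c := by
  rw [nxt_eq]
  by_cases h : ex c ∈ (↑(full m n) : Set Edg)
  · rw [if_pos h]
    unfold fo
    rw [fc_open]
  · rw [if_neg h]
    have h' : ¬ (ex c ∈ full m n) := h
    rw [mem_full, mem_verts, mem_verts] at h'
    have h1 : ¬ (0 ≤ (fc c).1 ∧ (fc c).1 < m ∧ 0 ≤ (fc c).2 ∧ (fc c).2 < n) ∧
        ¬ (0 ≤ (fc (rot c)).1 ∧ (fc (rot c)).1 < m ∧ 0 ≤ (fc (rot c)).2 ∧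
        (fc (rot c)).2 < n) := by
      obtain ⟨⟨x, y⟩, k⟩ := c
      fin_cases k <;> simp [ex, ed, src, tgt] at h' <;> simp [rot, fc] <;> omega
    unfold fo
    rw [if_neg h1.1, if_neg h1.2]

theorem gen_full {m n : ℕ} : gen m n (full m n) ≤ 0 := by
  unfold gen
  have h0 : ncl (verts m n) (↑(full m n) : Set Edg) = 1 := by
    have := clusters_edges m n
    unfold clusters at this
    rw [← coe_wF, ← Finset.coe_union] at this
    exact this
  have h1 := nor_ge (good_full (m := m) (n := n) (Finset.Subset.refl _)) (Φ := fo m n)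
    (fun x hx => fo_inv hx)
  have h2 : m * n + 1 ≤ ((fo m n) '' (↑(CA (verts m n)) : Set Cor)).ncard := by
    have h3 : (↑(insert none ((Finset.Ico 0 (m : ℤ) ×ˢ Finset.Ico 0 (n : ℤ)).image some)) :
        Set (Option (ℤ × ℤ))) ⊆ (fo m n) '' (↑(CA (verts m n)) : Set Cor) := by
      intro o ho
      rw [Finset.mem_coe, Finset.mem_insert] at ho
      rcases ho with rfl | ho
      · refine ⟨((0, 0), 2), ?_, ?_⟩
        · rw [Finset.mem_coe, mem_CA, mem_verts]; simp
        · unfold fo fc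
          rw [if_neg]
          simp
      · rw [Finset.mem_image] at ho
        obtain ⟨⟨x, y⟩, h, rfl⟩ := ho
        rw [Finset.mem_product, Finset.mem_Ico, Finset.mem_Ico] at h
        obtain ⟨⟨h1, h2⟩, h3, h4⟩ := h
        simp only at h1 h2 h3 h4
        refine ⟨((x, y), 0), ?_, ?_⟩
        · rw [Finset.mem_coe, mem_CA, mem_verts]
          simp only
          omega
        · unfold fo fc
          rw [if_pos]
          · rfl
          · exact ⟨h1, h2, h3, h4⟩
    have h4 := Set.ncard_le_ncard h3 ((Finset.finite_toSet _).image _)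
    rw [Set.ncard_coe_finset, Finset.card_insert_of_notMem (by simp),
      Finset.card_image_of_injective _ (Option.some_injective _), Finset.card_product] at h4
    simpa using h4
  rw [h0, card_full, card_verts]
  push_cast
  have h5 : (m * n + 1 : ℕ) ≤ nor (nxt (↑(full m n) : Set Edg)) (CA (verts m n)) := h2.trans h1
  have h6 : ((m : ℤ) * n + 1) ≤ nor (nxt (↑(full m n) : Set Edg)) (CA (verts m n)) := by
    exact_mod_cast h5
  push_cast at h6
  nlinarith

/-- **Euler's formula** -/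
theorem gen_zero {m n : ℕ} {G : Finset Edg} (hG : G ⊆ full m n) : gen m n G = 0 := by
  have h1 := gen_mono (m := m) (n := n) (Finset.empty_subset (full m n)) G hG
  rw [Finset.union_empty] at h1
  have h2 := gen_mono hG (full m n) (Finset.Subset.refl _)
  rw [Finset.union_eq_left.2 hG] at h2
  have h3 := gen_empty m n
  have h4 := gen_full (m := m) (n := n)
  omega

end

end Q78.FKI
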