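import Pool.Agent.Q78.FKI.Low
import Pool.Agent.Q78.FKI.Bd

set_option autoImplicit false

/-! The law of large numbers for the contacts of the interface. -/

namespace Q78.FKI

open Function H974 Finset Pool.Agent.Q297.FKL
open scoped Classical

noncomputable section

variable {m n k : ℕ} {q : ℝ} {F : Finset Edg}

/-- the constant of the finite energy -/
def BB (q : ℝ) : ℝ := max (Real.sqrt q) (1 / Real.sqrt q)

theorem BB_one (hq : 0 < q) : 1 ≤ BB q := by
  have hs := Real.sqrt_pos.2 hq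
  unfold BB
  rcases le_total 1 (Real.sqrt q) with h | h
  · exact le_max_of_le_left h
  · apply le_max_of_le_right
    rw [le_div_iff₀ hs, one_mul]
    exact h

theorem exp_neg_one_le : Real.exp (-1) ≤ 1 / 2 := by
  have h := Real.add_one_le_exp (1 : ℝ)
  rw [Real.exp_neg, ← one_div]
  apply one_div_le_one_div_of_le (by norm_num)
  linarith

/-- **many dangling edges** -/
theorem many (hq : 0 < q) (hm : 1 ≤ m) (hn : 1 ≤ n) (hk : 4 ≤ k) :
    pr m n q (fun F => ((SS m n k F).card : ℝ) < (m + n) / (1024 * BB q ^ 5)) ≤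
      2 * Real.exp (-((m + n) / (1024 * BB q ^ 5))) := by
  have hB := BB_one hq
  have hB1 : Real.sqrt q ≤ BB q := le_max_left _ _
  have hB2 : 1 / Real.sqrt q ≤ BB q := le_max_right _ _
  obtain ⟨B, hBB⟩ : ∃ B, B = BB q := ⟨_, rfl⟩
  rw [← hBB] at hB hB1 hB2 ⊢
  obtain ⟨κ, hκ⟩ : ∃ κ : ℝ, κ = 1 / (16 * B ^ 5) := ⟨_, rfl⟩
  have hB0 : 0 < B := by linarith
  have hκ0 : 0 < κ := by rw [hκ]; positivity
  have hrr : 1 - 1 / (16 * B ^ 5) * (1 - Real.exp (-1)) ≤ Real.exp (-(κ / 2)) := by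
    rw [← hκ]
    have h1 := exp_neg_one_le
    have h2 := Real.add_one_le_exp (-(κ / 2))
    nlinarith
  -- a common time
  have hT0 : ∀ F : Finset Edg, ∃ T0, F ⊆ edges m n → ∀ T, T0 ≤ T →
      m + n ≤ 8 * (KK m n F T (start m) (W m n 0) + KK m n F T (start m) (W m n 1)) := by
    intro F
    by_cases hF : F ⊆ edges m n
    · obtain ⟨T0, h⟩ := exists_time hF hm hn
      exact ⟨T0, fun _ => h⟩
    · exact ⟨0, fun h => absurd h hF⟩
  choose T0 hT0 using hT0
  obtain ⟨T, hT⟩ : ∃ T, ∀ F ⊆ edges m n, T0 F ≤ T := by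
    refine ⟨∑ F ∈ (edges m n).powerset, T0 F, fun F hF => ?_⟩
    exact Finset.single_le_sum (f := T0) (fun _ _ => Nat.zero_le _) (Finset.mem_powerset.2 hF)
  obtain ⟨X, hX⟩ : ∃ X : ℤ → Finset Edg → ℝ, ∀ b F, X b F =
    Real.exp (-((SS m n k F).card : ℝ) + κ / 2 * (KK m n F T (start m) (W m n b))) :=
    ⟨_, fun _ _ => rfl⟩
  have hfk : ∀ F ∈ (edges m n).powerset, 0 ≤ fk m n q F :=
    fun F hF => fk_nonneg hq (Finset.mem_powerset.1 hF)
  have hXs : ∀ b, ∑ F ∈ (edges m n).powerset, fk m n q F * X b F ≤ 1 := by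
    intro b
    refine le_trans (Finset.sum_le_sum fun F hF => ?_) (super_fk (m := m) (n := n) (b := b) hq
      hB1 hB2 hB (Real.exp_pos (-1)).le (Real.exp_le_one_iff.2 (by norm_num))
      (Real.exp_pos (-(κ / 2))) hrr T (start m))
    refine mul_le_mul_of_nonneg_left ?_ (hfk F hF)
    have hF' := Finset.mem_powerset.1 hF
    refine le_trans ?_ (wt_low (b := b) (Real.exp_pos (-1))
      (Real.exp_le_one_iff.2 (by norm_num)) (Real.exp_pos (-(κ / 2))) hF' T (start m) (W m n b)
      (Finset.Subset.refl _) (R.refl _))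
    rw [hX, ← Real.exp_neg, ← Real.exp_nat_mul, ← Real.exp_nat_mul, ← Real.exp_add,
      Real.exp_le_exp]
    have h1 : (DK m n F (W m n b) : ℝ) ≤ (SS m n k F).card := by
      exact_mod_cast DK_le hk (W m n b)
    have e : -(-(κ / 2)) = κ / 2 := by ring
    rw [e]
    nlinarith
  obtain ⟨L, hL⟩ : ∃ L : ℝ, L = (m : ℝ) + n := ⟨_, rfl⟩
  have hL0 : 0 ≤ L := by rw [hL]; positivity
  have e0 : ((m : ℝ) + n) / (1024 * B ^ 5) = κ / 64 * L := by
    rw [hκ, hL]
    field_simp
    norm_num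
  rw [e0]
  have key : ∀ F ∈ (edges m n).powerset, ((SS m n k F).card : ℝ) < κ / 64 * L →
      Real.exp (κ / 64 * L) ≤ X 0 F + X 1 F := by
    intro F hF hA
    have h1 := hT0 F (Finset.mem_powerset.1 hF) T (hT F (Finset.mem_powerset.1 hF))
    have h2 : L ≤ 8 * ((KK m n F T (start m) (W m n 0) : ℝ) +
        (KK m n F T (start m) (W m n 1) : ℝ)) := by
      rw [hL]
      exact_mod_cast h1
    rcases le_total (KK m n F T (start m) (W m n 0) : ℝ)
      (KK m n F T (start m) (W m n 1) : ℝ) with h3 | h3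
    · have h4 : Real.exp (κ / 64 * L) ≤ X 1 F := by
        rw [hX, Real.exp_le_exp]
        nlinarith
      have h5 : 0 < X 0 F := by rw [hX]; exact Real.exp_pos _
      linarith
    · have h4 : Real.exp (κ / 64 * L) ≤ X 0 F := by
        rw [hX, Real.exp_le_exp]
        nlinarith
      have h5 : 0 < X 1 F := by rw [hX]; exact Real.exp_pos _
      linarith
  have hE := Real.exp_pos (κ / 64 * L)
  have h1 : pr m n q (fun F => ((SS m n k F).card : ℝ) < κ / 64 * L) * Real.exp (κ / 64 * L) ≤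
      2 := by
    unfold pr
    rw [Finset.sum_filter, Finset.sum_mul]
    calc ∑ F ∈ (edges m n).powerset, (if ((SS m n k F).card : ℝ) < κ / 64 * L then fk m n q F
          else 0) * Real.exp (κ / 64 * L) ≤
          ∑ F ∈ (edges m n).powerset, (fk m n q F * X 0 F + fk m n q F * X 1 F) := by
          refine Finset.sum_le_sum fun F hF => ?_
          have h5 : 0 < X 0 F := by rw [hX]; exact Real.exp_pos _
          have h6 : 0 < X 1 F := by rw [hX]; exact Real.exp_pos _
          have h7 := hfk F hF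
          split_ifs with hA
          · rw [← mul_add]
            exact mul_le_mul_of_nonneg_left (key F hF hA) h7
          · rw [zero_mul]
            positivity
      _ ≤ 2 := by
          rw [Finset.sum_add_distrib]
          linarith [hXs 0, hXs 1]
  rw [Real.exp_neg]
  rw [← div_eq_mul_inv, le_div_iff₀ hE]
  exact h1

theorem pr_mono {A A' : Finset Edg → Prop} (hq : 0 < q) (h : ∀ F, F ⊆ edges m n → A F → A' F) :
    pr m n q A ≤ pr m n q A' := by
  unfold pr
  apply Finset.sum_le_sum_of_subset_of_nonneg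
  · intro F hF
    rw [Finset.mem_filter, Finset.mem_powerset] at hF ⊢
    exact ⟨hF.1, h F hF.1 hF.2⟩
  · intro F hF _
    rw [Finset.mem_filter, Finset.mem_powerset] at hF
    exact fk_nonneg hq hF.1

theorem pr_or {A A' : Finset Edg → Prop} (hq : 0 < q) :
    pr m n q (fun F => A F ∨ A' F) ≤ pr m n q A + pr m n q A' := by
  unfold pr
  rw [Finset.sum_filter, Finset.sum_filter, Finset.sum_filter, ← Finset.sum_add_distrib]
  refine Finset.sum_le_sum fun F hF => ?_
  have h := fk_nonneg (m := m) (n := n) hq (Finset.mem_powerset.1 hF)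
  by_cases h1 : A F <;> by_cases h2 : A' F <;> simp [h1, h2, h]

/-- Markov's inequality -/
theorem markov (hq : 0 < q) {Y : Finset Edg → ℝ} (hY : ∀ F, 0 ≤ Y F) {t s : ℝ} (ht : 0 < t)
    (hs : ∑ F ∈ (edges m n).powerset, fk m n q F * Y F ≤ s) :
    pr m n q (fun F => t ≤ Y F) ≤ s / t := by
  rw [le_div_iff₀ ht]
  refine le_trans ?_ hs
  unfold pr
  rw [Finset.sum_filter, Finset.sum_mul]
  refine Finset.sum_le_sum fun F hF => ?_
  have h := fk_nonneg (m := m) (n := n) hq (Finset.mem_powerset.1 hF)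
  split_ifs with h1
  · exact mul_le_mul_of_nonneg_left h1 h
  · rw [zero_mul]
    exact mul_nonneg h (hY F)

/-- **law of large numbers** -/
theorem lln (hq : 0 < q) (hq4 : q ≤ 4) (hm : 1 ≤ m) (hn : 1 ≤ n) (hk : 4 ≤ k) {ε : ℝ}
    (hε : 0 < ε) (hε1 : ε ≤ 1) :
    pr m n q (fun F => ε * (SS m n k F).card ≤
      |((TS m n k F).card : ℝ) - Real.sqrt q * (SS m n k F).card|) ≤
      10 ^ 7 * BB q ^ 5 * k / (ε ^ 2 * (m + n)) := by
  have hB := BB_one hq
  obtain ⟨B, hBB⟩ : ∃ B, B = BB q := ⟨_, rfl⟩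
  have hm1 := many hq hm hn hk
  rw [← hBB] at hB hm1 ⊢
  have hB0 : 0 < B := by linarith
  obtain ⟨L, hL⟩ : ∃ L : ℝ, L = (m : ℝ) + n := ⟨_, rfl⟩
  have hm' : (1 : ℝ) ≤ m := by exact_mod_cast hm
  have hn' : (1 : ℝ) ≤ n := by exact_mod_cast hn
  have hk' : (4 : ℝ) ≤ k := by exact_mod_cast hk
  have hL0 : 0 < L := by rw [hL]; linarith
  rw [← hL] at hm1 ⊢
  obtain ⟨M, hM⟩ : ∃ M : ℝ, M = L / (1024 * B ^ 5) := ⟨_, rfl⟩
  have hM0 : 0 < M := by rw [hM]; positivity
  rw [← hM] at hm1
  have h1 := ms (m := m) (n := n) (k := k) hq hq4 (h := fun _ => (1 : ℝ)) (fun _ => by simp) hM0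
  have h2 := markov (m := m) (n := n) hq (Y := fun F =>
    (EE m n k q (fun _ => (1 : ℝ)) F / DD m n k M F) ^ 2) (fun F => sq_nonneg _)
    (t := ε ^ 2 / 16) (by positivity) h1
  have hsq : Real.sqrt q ≤ 2 := by
    rw [Real.sqrt_le_left (by norm_num)]
    norm_num
    exact hq4
  have h3 : pr m n q (fun F => ε * (SS m n k F).card ≤
      |((TS m n k F).card : ℝ) - Real.sqrt q * (SS m n k F).card|) ≤
      pr m n q (fun F => ((SS m n k F).card : ℝ) < M ∨ ε ^ 2 / 16 ≤
        (EE m n k q (fun _ => (1 : ℝ)) F / DD m n k M F) ^ 2) := by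
    apply pr_mono hq
    intro F _ hF
    by_cases hA : ((SS m n k F).card : ℝ) < M
    · exact Or.inl hA
    · right
      push Not at hA
      obtain ⟨s, hs⟩ : ∃ s : ℝ, s = (SS m n k F).card := ⟨_, rfl⟩
      obtain ⟨t, ht⟩ : ∃ t : ℝ, t = (TS m n k F).card := ⟨_, rfl⟩
      have ht0 : 0 ≤ t := by rw [ht]; positivity
      have hE : EE m n k q (fun _ => (1 : ℝ)) F = Real.sqrt q * s - t := by
        unfold EE
        simp only [sum_const, nsmul_eq_mul, mul_one]
        rw [hs, ht]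
      have hD : DD m n k M F = s + t := by
        unfold DD
        rw [← hs, ← ht]
        apply max_eq_left
        rw [hs]
        linarith
      rw [← hs] at hA hF
      rw [← ht] at hF
      have hs0 : 0 < s := by linarith
      rw [hE, hD, div_pow, le_div_iff₀ (by positivity)]
      obtain ⟨d, hd⟩ : ∃ d, d = |t - Real.sqrt q * s| := ⟨_, rfl⟩
      rw [← hd] at hF
      have hd2 : (Real.sqrt q * s - t) ^ 2 = d ^ 2 := by
        rw [hd, sq_abs]; ring
      have hd3 : t ≤ 2 * s + d := by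
        have := le_abs_self (t - Real.sqrt q * s)
        rw [← hd] at this
        nlinarith
      have hd0 : 0 ≤ d := by rw [hd]; positivity
      rw [hd2]
      have h4 : ε * (s + t) ≤ 4 * d := by nlinarith
      have h5 : 0 ≤ ε * (s + t) := by positivity
      nlinarith
  refine h3.trans ((pr_or hq).trans ((add_le_add hm1 h2).trans ?_))
  have hexp : Real.exp (-M) ≤ 1 / M := by
    have := Real.add_one_le_exp M
    rw [Real.exp_neg, ← one_div]
    exact one_div_le_one_div_of_le hM0 (by linarith)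
  have hε2 : ε ^ 2 ≤ 1 := by nlinarith
  have hM' : 1 / M = 1024 * B ^ 5 / L := by rw [hM]; field_simp
  calc 2 * Real.exp (-M) + 600 * k / M / (ε ^ 2 / 16) ≤
        2 * (1 / M) + 600 * k / M / (ε ^ 2 / 16) := by linarith
    _ = (2 * ε ^ 2 + 9600 * k) * (1 / M) / ε ^ 2 := by field_simp; ring
    _ ≤ (9602 * k) * (1 / M) / ε ^ 2 := by
        refine div_le_div_of_nonneg_right (mul_le_mul_of_nonneg_right ?_ (by positivity))
          (by positivity)
        nlinarith
    _ = 9602 * 1024 * B ^ 5 * k / (ε ^ 2 * L) := by rw [hM']; field_simp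
    _ ≤ 10 ^ 7 * B ^ 5 * k / (ε ^ 2 * L) := by
        gcongr
        norm_num

end

end Q78.FKI
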