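import Pool.Agent.Q78.FKI.Deter

set_option autoImplicit false

/-! The number of dangling edges on the interface. -/

namespace Q78.FKI

open Function H974 Finset Pool.Agent.Q297.FKL
open scoped Classical

noncomputable section

variable {m n : ℕ} {F : Finset Edg} {c d : Cor}

theorem ed_inj {z : Vtx} {k l : Fin 4} (h : ed z k = ed z l) : k = l := by
  obtain ⟨x, y⟩ := z
  fin_cases k <;> fin_cases l <;> simp [ed] at h ⊢ <;> omega

theorem ed_end (z : Vtx) (k : Fin 4) : src (ed z k) = z ∨ tgt (ed z k) = z := by
  obtain ⟨x, y⟩ := z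
  fin_cases k <;> simp [ed, src, tgt]

theorem ed_not_wired {b : ℤ} {z : Vtx} (hz : z ∈ W m n b) (k : Fin 4) : ed z k ∉ wired m n := by
  rw [mem_W] at hz
  obtain ⟨x, y⟩ := z
  simp only at hz
  intro h
  fin_cases k <;> simp [ed, mem_wired] at h <;> omega

theorem ed_par (c : Cor) : ed (par c).1 (c.2 + 3) = ex c := by
  obtain ⟨⟨x, y⟩, k⟩ := c
  fin_cases k <;> simp [par, nb, ex, ed]

theorem dang_iter {b : ℤ} (hz : (par c).1 ∈ W m n b)
    (h : F ∩ star m n (par c).1 = {ex c}) (hF : F ⊆ edges m n) :
    nx m n F c = ((par c).1, c.2 + 3) ∧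
    (nx m n F)^[2] c = ((par c).1, c.2 + 4) ∧ (nx m n F)^[3] c = ((par c).1, c.2 + 5) ∧
    (nx m n F)^[4] c = par c := by
  obtain ⟨z, hzz⟩ : ∃ z, z = (par c).1 := ⟨_, rfl⟩
  rw [← hzz] at h hz ⊢
  have hmem : ex c ∈ F := by
    have : ex c ∈ F ∩ star m n z := by rw [h]; exact Finset.mem_singleton_self _
    exact (Finset.mem_inter.1 this).1
  have hcl : ∀ l : Fin 4, l ≠ c.2 + 3 → ed z l ∉ (↑F ∪ wired m n : Set Edg) := by
    intro l hl hmem'
    rcases hmem' with h1 | h1
    · have h2 : ed z l ∈ F ∩ star m n z := by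
        rw [Finset.mem_inter, mem_star]
        exact ⟨h1, hF h1, ed_end z l⟩
      rw [h, Finset.mem_singleton, ← ed_par, ← hzz] at h2
      exact hl (ed_inj h2)
    · exact ed_not_wired hz l h1
  have h1 : nx m n F c = (z, c.2 + 3) := by
    rw [nx_open (Or.inl hmem), hzz]
    rfl
  have hstep : ∀ l : Fin 4, l + 1 ≠ c.2 + 3 → nx m n F (z, l) = (z, l + 1) := by
    intro l hl
    rw [nx_closed]
    exact hcl _ hl
  have h2 : (nx m n F)^[2] c = (z, c.2 + 4) := by
    rw [iterate_succ_apply', iterate_one, h1, hstep]
    · rw [add_assoc]; rfl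
    · intro hh
      revert hh
      generalize c.2 = k
      revert k
      decide
  have h3 : (nx m n F)^[3] c = (z, c.2 + 5) := by
    rw [iterate_succ_apply', h2, hstep]
    · rw [add_assoc]; rfl
    · intro hh
      revert hh
      generalize c.2 = k
      revert k
      decide
  refine ⟨h1, h2, h3, ?_⟩
  rw [iterate_succ_apply', h3, hstep]
  · rw [hzz]
    unfold par
    refine Prod.ext rfl ?_
    simp only
    generalize c.2 = k
    revert k
    decide
  · intro hh
    revert hh
    generalize c.2 = k
    revert k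
    decide

theorem dang {b : ℤ} (hz : (par c).1 ∈ W m n b) (h : F ∩ star m n (par c).1 = {ex c})
    (hF : F ⊆ edges m n) (hc : R (nx m n F) (start m) c) :
    TT (nx m n F) (start m) c (par c) 4 := by
  obtain ⟨h1, h2, h3, h4⟩ := dang_iter hz h hF
  refine ⟨hc, by norm_num, h4, ?_⟩
  have hne : ∀ k : Fin 4, ((par c).1, k) ≠ start m := by
    intro k hk
    have := congrArg (fun c : Cor => c.1.2) hk
    simp only [start] at this
    rw [mem_W] at hz
    omega
  intro i i1 i2
  have : i = 1 ∨ i = 2 ∨ i = 3 ∨ i = 4 := by omega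
  rcases this with rfl | rfl | rfl | rfl
  · rw [iterate_one, h1]; exact hne _
  · rw [h2]; exact hne _
  · rw [h3]; exact hne _
  · rw [h4]; exact hne _

theorem succ_dang {b : ℤ} {z : Vtx} (hz : z ∈ W m n b) (hF : F ⊆ edges m n)
    (hc : R (nx m n F) (start m) c) (he : ex c ∈ star m n z) (h : F ∩ star m n z = {ex c}) :
    Dg m n F z := by
  have he' := mem_star.1 he
  have hcase : z = c.1 ∨ z = (par c).1 := by
    have h0 : (par c).1 = nb c.1 (c.2 + 1) := rfl
    rcases ends_ex c with ⟨h1, h2⟩ | ⟨h1, h2⟩
    · rw [h1, h2] at he'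
      rcases he'.2 with h3 | h3
      · exact Or.inl h3.symm
      · exact Or.inr (by rw [h0, h3])
    · rw [h1, h2] at he'
      rcases he'.2 with h3 | h3
      · exact Or.inr (by rw [h0, h3])
      · exact Or.inl h3.symm
  rcases hcase with hz1 | hz1
  · have hp : (par (par c)).1 = z := by rw [par_par, hz1]
    have h1 : (par (par c)).1 ∈ W m n b := by rw [hp]; exact hz
    have h2 : F ∩ star m n (par (par c)).1 = {ex (par c)} := by rw [hp, ex_par]; exact h
    obtain ⟨-, -, -, h3⟩ := dang_iter h1 h2 hF
    rw [par_par] at h3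
    have hmem := ex_mem (full_of_edges he'.1)
    have h4 : R (nx m n F) c (par c) := (good_nx hF).symm hmem.2 ⟨4, h3⟩
    refine ⟨par c, by rw [ex_par]; exact he'.1, hp, ?_⟩
    exact dang h1 h2 hF (hc.trans h4)
  · rw [hz1] at hz h
    exact ⟨c, he'.1, hz1.symm, dang hz h hF hc⟩

theorem wt_low {b : ℤ} {lam rho : ℝ} (hlam0 : 0 < lam) (hlam : lam ≤ 1) (hrho : 0 < rho)
    (hF : F ⊆ edges m n) (T : ℕ) : ∀ (c : Cor) (U : Finset Vtx), U ⊆ W m n b →
      R (nx m n F) (start m) c →
      lam ^ DK m n F U * rho⁻¹ ^ KK m n F T c U ≤ wt m n F lam rho T c U := by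
  induction T with
  | zero =>
    intro c U _ _
    have h0 : KK m n F 0 c U = 0 := by
      unfold KK
      rw [Finset.card_eq_zero, Finset.filter_eq_empty_iff]
      rintro z _ ⟨t, ht, _⟩
      omega
    rw [h0, pow_zero, mul_one, wt]
    exact pow_le_one₀ hlam0.le hlam
  | succ T ih =>
    intro c U hU hc
    have hc' : R (nx m n F) (start m) (nx m n F c) := hc.step
    by_cases h : ∃ z ∈ U, ex c ∈ star m n z
    · obtain ⟨z, hz⟩ : ∃ z, z = h.choose := ⟨_, rfl⟩
      have hz1 : z ∈ U := by rw [hz]; exact h.choose_spec.1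
      have hz2 : ex c ∈ star m n z := by rw [hz]; exact h.choose_spec.2
      have hi := ih (nx m n F c) (U.erase z) ((Finset.erase_subset _ _).trans hU) hc'
      rw [wt, dif_pos h, ← hz]
      have hK : KK m n F (T + 1) c U = KK m n F T (nx m n F c) (U.erase z) + 1 := by
        unfold KK
        have h1 : U.filter (fun w => Ext m n F (T + 1) c w) =
            insert z ((U.erase z).filter fun w => Ext m n F T (nx m n F c) w) := by
          ext w
          rw [Finset.mem_filter, Finset.mem_insert, Finset.mem_filter, Finset.mem_erase]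
          constructor
          · rintro ⟨h1, t, ht, h2⟩
            by_cases hw : w = z
            · exact Or.inl hw
            · refine Or.inr ⟨⟨hw, h1⟩, ?_⟩
              rcases Nat.eq_zero_or_pos t with h0 | h0
              · rw [h0] at h2
                exact absurd (star_disj (hU h1) (hU hz1) h2 hz2) hw
              · obtain ⟨v, rfl⟩ : ∃ v, t = v + 1 := ⟨t - 1, by omega⟩
                rw [iterate_succ_apply] at h2
                exact ⟨v, by omega, h2⟩
          · rintro (rfl | ⟨⟨h1, h2⟩, t, ht, h3⟩)
            · exact ⟨hz1, 0, by omega, hz2⟩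
            · refine ⟨h2, t + 1, by omega, ?_⟩
              rw [iterate_succ_apply]
              exact h3
        rw [h1, Finset.card_insert_of_notMem]
        intro h2
        rw [Finset.mem_filter, Finset.mem_erase] at h2
        exact h2.1.1 rfl
      have hD : DK m n F U = DK m n F (U.erase z) + if Dg m n F z then 1 else 0 := by
        unfold DK
        conv_lhs => rw [← Finset.insert_erase hz1]
        rw [Finset.filter_insert]
        split_ifs with h1
        · rw [Finset.card_insert_of_notMem]
          intro h2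
          rw [Finset.mem_filter, Finset.mem_erase] at h2
          exact h2.1.1 rfl
        · simp
      rw [hK, hD, pow_add, pow_succ]
      have h3 : lam ^ (if Dg m n F z then 1 else 0) ≤
          (if F ∩ star m n z = {ex c} then lam else 1) := by
        split_ifs with h4 h5 h5
        · rw [pow_one]
        · rw [pow_one]; exact hlam
        · exact absurd (succ_dang (hU hz1) hF hc hz2 h5) h4
        · rw [pow_zero]
      have h6 : 0 ≤ rho⁻¹ := by positivity
      have h7 : 0 ≤ lam ^ DK m n F (U.erase z) * rho⁻¹ ^ KK m n F T (nx m n F c) (U.erase z) := by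
        positivity
      calc lam ^ DK m n F (U.erase z) * lam ^ (if Dg m n F z then 1 else 0) *
            (rho⁻¹ ^ KK m n F T (nx m n F c) (U.erase z) * rho⁻¹) =
            lam ^ (if Dg m n F z then 1 else 0) * rho⁻¹ * (lam ^ DK m n F (U.erase z) *
              rho⁻¹ ^ KK m n F T (nx m n F c) (U.erase z)) := by ring
        _ ≤ (if F ∩ star m n z = {ex c} then lam else 1) * rho⁻¹ *
              wt m n F lam rho T (nx m n F c) (U.erase z) := by
            refine mul_le_mul (mul_le_mul_of_nonneg_right h3 h6) hi h7 ?_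
            split_ifs
            · positivity
            · positivity
    · rw [wt, dif_neg h]
      have hi := ih (nx m n F c) U hU hc'
      have hK : KK m n F (T + 1) c U = KK m n F T (nx m n F c) U := by
        unfold KK
        congr 1
        apply Finset.filter_congr
        intro w hw
        constructor
        · rintro ⟨t, ht, h2⟩
          rcases Nat.eq_zero_or_pos t with h0 | h0
          · rw [h0] at h2
            exact absurd ⟨w, hw, h2⟩ h
          · obtain ⟨v, rfl⟩ : ∃ v, t = v + 1 := ⟨t - 1, by omega⟩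
            rw [iterate_succ_apply] at h2
            exact ⟨v, by omega, h2⟩
        · rintro ⟨t, ht, h3⟩
          refine ⟨t + 1, by omega, ?_⟩
          rw [iterate_succ_apply]
          exact h3
      rw [hK]
      exact hi

/-- dangling edges are contacts -/
theorem DK_le {k : ℕ} (hk : 4 ≤ k) (U : Finset Vtx) : DK m n F U ≤ (SS m n k F).card := by
  unfold DK
  have h : U.filter (fun z => Dg m n F z) ⊆ (SS m n k F).image (fun p => (par p.1).1) := by
    intro z hz
    rw [Finset.mem_filter] at hz
    obtain ⟨-, c, h1, h2, h3⟩ := hz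
    rw [Finset.mem_image]
    refine ⟨(c, pth (nx m n F) c 4), ?_, h2⟩
    rw [mem_SS]
    refine ⟨h1, ?_, ?_, ?_⟩
    · rw [length_pth]; exact hk
    · rw [length_pth]; exact h3
    · rw [length_pth]
  exact (Finset.card_le_card h).trans Finset.card_image_le

end

end Q78.FKI
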