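import Mathlib

set_option autoImplicit false

/-! Orbits of an injective map of a finite set, and the exchange of two values. -/

namespace Q78.FKI

open Function
open scoped Classical

noncomputable section

variable {α : Type}

/-- `y` is on the forward orbit of `x` -/
def R (f : α → α) (x y : α) : Prop := ∃ t : ℕ, f^[t] x = y

/-- the map is injective and maps the finite set into itself -/
structure Good (f : α → α) (A : Finset α) : Prop where
  inj : Injective f
  maps : ∀ x ∈ A, f x ∈ A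

/-- the values at `a` and `b` are exchanged -/
def swp (f : α → α) (a b x : α) : α := f (Equiv.swap a b x)

variable {f g : α → α} {A : Finset α} {a b s : α}

theorem swp_left : swp f a b a = f b := by unfold swp; rw [Equiv.swap_apply_left]

theorem swp_right : swp f a b b = f a := by unfold swp; rw [Equiv.swap_apply_right]

theorem swp_ne {x : α} (h1 : x ≠ a) (h2 : x ≠ b) : swp f a b x = f x := by
  unfold swp; rw [Equiv.swap_apply_of_ne_of_ne h1 h2]

theorem swp_swp : swp (swp f a b) a b = f := by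
  funext x
  unfold swp
  rw [Equiv.swap_apply_self]

theorem swp_comm : swp f a b = swp f b a := by
  funext x
  unfold swp
  rw [Equiv.swap_comm]

theorem Good.swp (h : Good f A) (ha : a ∈ A) (hb : b ∈ A) : Good (swp f a b) A := by
  refine ⟨h.inj.comp (Equiv.swap a b).injective, fun x hx => ?_⟩
  by_cases h1 : x = a
  · rw [h1, swp_left]; exact h.maps _ hb
  · by_cases h2 : x = b
    · rw [h2, swp_right]; exact h.maps _ ha
    · rw [swp_ne h1 h2]; exact h.maps _ hx

theorem R.refl (x : α) : R f x x := ⟨0, rfl⟩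

theorem R.trans {x y z : α} (h1 : R f x y) (h2 : R f y z) : R f x z := by
  obtain ⟨t, rfl⟩ := h1
  obtain ⟨u, rfl⟩ := h2
  exact ⟨u + t, iterate_add_apply f u t x⟩

theorem R.iter (x : α) (t : ℕ) : R f x (f^[t] x) := ⟨t, rfl⟩

theorem R.step {x y : α} (h : R f x y) : R f x (f y) := by
  obtain ⟨t, rfl⟩ := h
  exact ⟨t + 1, iterate_succ_apply' f t x⟩

theorem Good.iter (h : Good f A) {x : α} (hx : x ∈ A) (t : ℕ) : f^[t] x ∈ A := by
  induction t with
  | zero => exact hx
  | succ t ih => rw [iterate_succ_apply']; exact h.maps _ ih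

theorem Good.memR (h : Good f A) {x y : α} (hx : x ∈ A) (hr : R f x y) : y ∈ A := by
  obtain ⟨t, rfl⟩ := hr
  exact h.iter hx t

theorem Good.per (h : Good f A) {x : α} (hx : x ∈ A) : ∃ r, 1 ≤ r ∧ f^[r] x = x := by
  obtain ⟨i, j, hij, he⟩ := Finite.exists_ne_map_eq_of_infinite
    (fun t : ℕ => (⟨f^[t] x, h.iter hx t⟩ : A))
  have he' : f^[i] x = f^[j] x := congrArg Subtype.val he
  rcases Nat.lt_or_gt_of_ne hij with hl | hl
  · refine ⟨j - i, by omega, ?_⟩
    apply h.inj.iterate i
    rw [← iterate_add_apply, Nat.add_sub_cancel' hl.le, he']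
  · refine ⟨i - j, by omega, ?_⟩
    apply h.inj.iterate j
    rw [← iterate_add_apply, Nat.add_sub_cancel' hl.le, he']

theorem iter_mul {x : α} {r : ℕ} (h : f^[r] x = x) (k : ℕ) : f^[k * r] x = x := by
  induction k with
  | zero => simp
  | succ k ih => rw [Nat.succ_mul, iterate_add_apply, h, ih]

theorem Good.symm (h : Good f A) {x y : α} (hx : x ∈ A) (hr : R f x y) : R f y x := by
  obtain ⟨t, rfl⟩ := hr
  obtain ⟨r, hr1, hr2⟩ := h.per hx
  refine ⟨t * r - t, ?_⟩
  rw [← iterate_add_apply, Nat.sub_add_cancel (Nat.le_mul_of_pos_right t hr1)]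
  exact iter_mul hr2 t

/-- the first visit -/
theorem first {x y : α} (h : R f x y) : ∃ t, f^[t] x = y ∧ ∀ i < t, f^[i] x ≠ y :=
  ⟨Nat.find h, Nat.find_spec h, fun _ hi => Nat.find_min h hi⟩

/-- the first return -/
theorem Good.ret (h : Good f A) {x : α} (hx : x ∈ A) :
    ∃ r, 1 ≤ r ∧ f^[r] x = x ∧ ∀ i, 1 ≤ i → i < r → f^[i] x ≠ x := by
  have h0 := h.per hx
  refine ⟨Nat.find h0, (Nat.find_spec h0).1, (Nat.find_spec h0).2, fun i h1 h2 h3 => ?_⟩
  exact Nat.find_min h0 h2 ⟨h1, h3⟩

/-- the orbit of a periodic point -/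
theorem R_of_per {x y : α} {r : ℕ} (hr : 1 ≤ r) (h : f^[r] x = x) (hy : R f x y) :
    ∃ i, 1 ≤ i ∧ i ≤ r ∧ f^[i] x = y := by
  obtain ⟨t, rfl⟩ := hy
  have hmod : f^[t % r] x = f^[t] x := by
    conv_rhs => rw [← Nat.mod_add_div t r, iterate_add_apply]
    rw [mul_comm, iter_mul h]
  by_cases h0 : t % r = 0
  · refine ⟨r, hr, le_rfl, ?_⟩
    rw [h, ← hmod, h0]
    rfl
  · exact ⟨t % r, by omega, (Nat.mod_lt _ (by omega)).le, hmod⟩

/-- the two maps have the same iterates as long as `a` and `b` are not met -/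
theorem seg0 {x : α} {n : ℕ} (h : ∀ i < n, f^[i] x ≠ a ∧ f^[i] x ≠ b) :
    ∀ i ≤ n, (swp f a b)^[i] x = f^[i] x := by
  intro i
  induction i with
  | zero => intro _; rfl
  | succ i ih =>
    intro hi
    rw [iterate_succ_apply', iterate_succ_apply', ih (by omega)]
    exact swp_ne (h i (by omega)).1 (h i (by omega)).2

theorem seg1 {n : ℕ} (h : ∀ i, 1 ≤ i → i < n → f^[i] a ≠ a ∧ f^[i] a ≠ b) :
    ∀ i, 1 ≤ i → i ≤ n → (swp f a b)^[i] b = f^[i] a := by
  intro i h1 h2
  obtain ⟨j, rfl⟩ : ∃ j, i = j + 1 := ⟨i - 1, by omega⟩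
  rw [iterate_succ_apply, iterate_succ_apply, swp_right]
  refine seg0 (n := n - 1) (fun k hk => ?_) j (by omega)
  have := h (k + 1) (by omega) (by omega)
  rw [iterate_succ_apply] at this
  exact this

/-- the minimal number of steps from `a` to `b` -/
theorem min_seg (hab : a ≠ b) {r : ℕ} (h1 : f^[r] a = b) (h2 : ∀ i < r, f^[i] a ≠ b) :
    1 ≤ r ∧ ∀ i, 1 ≤ i → i < r → f^[i] a ≠ a ∧ f^[i] a ≠ b := by
  constructor
  · rcases Nat.eq_zero_or_pos r with h | h
    · rw [h] at h1; exact absurd h1 hab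
    · exact h
  · intro i hi1 hi2
    refine ⟨fun h => ?_, h2 i hi2⟩
    apply h2 (r - i) (by omega)
    rw [← h1]
    conv_rhs => rw [← Nat.sub_add_cancel hi2.le, iterate_add_apply, h]

/-- splitting -/
theorem split (hab : a ≠ b) (hR : R f a b) : ¬ R (swp f a b) b a := by
  obtain ⟨r, h1, h2⟩ := first hR
  obtain ⟨hr, h3⟩ := min_seg hab h1 h2
  have h4 := seg1 h3
  have h5 : (swp f a b)^[r] b = b := by rw [h4 r hr le_rfl, h1]
  intro h
  obtain ⟨i, i1, i2, i3⟩ := R_of_per hr h5 h
  rw [h4 i i1 i2] at i3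
  rcases Nat.lt_or_ge i r with hi | hi
  · exact (h3 i i1 hi).1 i3
  · have : i = r := by omega
    rw [this, h1] at i3
    exact hab i3.symm

/-- merging -/
theorem Good.merge (h : Good f A) (ha : a ∈ A) (hR : ¬ R f a b) {x : α} (hx : R f a x) :
    R (FKI.swp f a b) b x := by
  obtain ⟨r, h1, h2, h3⟩ := h.ret ha
  have h4 := seg1 (f := f) (a := a) (b := b) (n := r) (fun i i1 i2 =>
    ⟨h3 i i1 i2, fun hh => hR ⟨i, hh⟩⟩)
  obtain ⟨i, i1, i2, rfl⟩ := R_of_per h1 h2 hx
  exact ⟨i, h4 i i1 i2⟩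

theorem away {x y : α} (h1 : ¬ R f x a) (h2 : ¬ R f x b) : R (swp f a b) x y ↔ R f x y := by
  have h := fun n => seg0 (f := f) (a := a) (b := b) (x := x) (n := n)
    (fun i _ => ⟨fun hh => h1 ⟨i, hh⟩, fun hh => h2 ⟨i, hh⟩⟩)
  constructor
  · rintro ⟨t, rfl⟩
    exact ⟨t, (h t t le_rfl).symm⟩
  · rintro ⟨t, rfl⟩
    exact ⟨t, h t t le_rfl⟩

theorem Good.hins (h : Good f A) (ha : a ∈ A) (hb : b ∈ A) (hR : ¬ R f a b) {x y : α}
    (hx : x ∈ A) (hy : y ∈ A) : R (FKI.swp f a b) x y ↔
      R f x y ∨ (R f x a ∧ R f b y) ∨ (R f x b ∧ R f a y) := by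
  have hg := h.swp ha hb
  have hR' : ¬ R f b a := fun hh => hR (h.symm hb hh)
  have m1 : ∀ z, R f a z → R (FKI.swp f a b) b z := fun z hz => h.merge ha hR hz
  have m2 : ∀ z, R f b z → R (FKI.swp f a b) a z := fun z hz => by
    rw [swp_comm]; exact h.merge hb hR' hz
  have m3 : R (FKI.swp f a b) b a := m1 a (R.refl a)
  have m4 : R (FKI.swp f a b) a b := m2 b (R.refl b)
  constructor
  · intro hxy
    by_cases h1 : R f x a
    · by_cases h3 : R f y a
      · exact Or.inl (h1.trans (h.symm hy h3))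
      · by_cases h4 : R f y b
        · exact Or.inr (Or.inl ⟨h1, h.symm hy h4⟩)
        · have := (away h3 h4).1 (hg.symm hx hxy)
          exact Or.inl (h.symm hy this)
    · by_cases h2 : R f x b
      · by_cases h3 : R f y b
        · exact Or.inl (h2.trans (h.symm hy h3))
        · by_cases h4 : R f y a
          · exact Or.inr (Or.inr ⟨h2, h.symm hy h4⟩)
          · have := (away h4 h3).1 (hg.symm hx hxy)
            exact Or.inl (h.symm hy this)
      · exact Or.inl ((away h1 h2).1 hxy)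
  · rintro (hxy | ⟨h1, h2⟩ | ⟨h1, h2⟩)
    · by_cases h1 : R f x a
      · have k1 := m1 x (h.symm hx h1)
        have k2 := m1 y ((h.symm hx h1).trans hxy)
        exact (hg.symm hb k1).trans k2
      · by_cases h2 : R f x b
        · have k1 := m2 x (h.symm hx h2)
          have k2 := m2 y ((h.symm hx h2).trans hxy)
          exact (hg.symm ha k1).trans k2
        · exact (away h1 h2).2 hxy
    · exact ((hg.symm hb (m1 x (h.symm hx h1))).trans m3).trans (m2 y h2)
    · exact ((hg.symm ha (m2 x (h.symm hx h1))).trans m4).trans (m1 y h2)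

/-- the orbit -/
def orb (f : α → α) (x : α) : Set α := {y | R f x y}

/-- the number of orbits -/
def nor (f : α → α) (A : Finset α) : ℕ := Set.ncard (orb f '' (A : Set α))

theorem Good.orb_eq (h : Good f A) {x y : α} (hx : x ∈ A) (hxy : R f x y) : orb f x = orb f y := by
  ext z
  exact ⟨fun h1 => (h.symm hx hxy).trans h1, fun h1 => hxy.trans h1⟩

theorem Good.orb_iff (h : Good f A) {x y : α} (hx : x ∈ A) : orb f x = orb f y ↔ R f x y := by
  constructor
  · intro he
    have : y ∈ orb f y := R.refl y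
    rw [← he] at this
    exact this
  · exact h.orb_eq hx

theorem Good.nor_merge (h : Good f A) (ha : a ∈ A) (hb : b ∈ A) (hR : ¬ R f a b) :
    nor f A = nor (FKI.swp f a b) A + 1 := by
  have hg := h.swp ha hb
  have hc : ∀ x ∈ A, orb (FKI.swp f a b) x = if R f x a ∨ R f x b then orb f a ∪ orb f b
      else orb f x := by
    intro x hx
    have hmem : ∀ y, y ∈ orb (FKI.swp f a b) x ↔ y ∈ A ∧ (R f x y ∨ (R f x a ∧ R f b y) ∨
        (R f x b ∧ R f a y)) := by
      intro y
      constructor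
      · intro hy
        have hyA := hg.memR hx hy
        exact ⟨hyA, (h.hins ha hb hR hx hyA).1 hy⟩
      · rintro ⟨hyA, hy⟩
        exact (h.hins ha hb hR hx hyA).2 hy
    split_ifs with h1
    · ext y
      rw [hmem, Set.mem_union]
      constructor
      · rintro ⟨_, hy⟩
        rcases h1 with h1 | h1
        · rcases hy with hy | ⟨-, hy⟩ | ⟨-, hy⟩
          · exact Or.inl ((h.symm hx h1).trans hy)
          · exact Or.inr hy
          · exact Or.inl hy
        · rcases hy with hy | ⟨-, hy⟩ | ⟨-, hy⟩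
          · exact Or.inr ((h.symm hx h1).trans hy)
          · exact Or.inr hy
          · exact Or.inl hy
      · rintro (hy | hy)
        · refine ⟨h.memR ha hy, ?_⟩
          rcases h1 with h1 | h1
          · exact Or.inl (h1.trans hy)
          · exact Or.inr (Or.inr ⟨h1, hy⟩)
        · refine ⟨h.memR hb hy, ?_⟩
          rcases h1 with h1 | h1
          · exact Or.inr (Or.inl ⟨h1, hy⟩)
          · exact Or.inl (h1.trans hy)
    · ext y
      rw [hmem]
      constructor
      · rintro ⟨_, hy | ⟨hy, -⟩ | ⟨hy, -⟩⟩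
        · exact hy
        · exact absurd (Or.inl hy) h1
        · exact absurd (Or.inr hy) h1
      · exact fun hy => ⟨h.memR hx hy, Or.inl hy⟩
  have hfin : (orb f '' (A : Set α)).Finite := A.finite_toSet.image _
  have hset : orb (FKI.swp f a b) '' (A : Set α) =
      insert (orb f a ∪ orb f b) ((orb f '' (A : Set α)) \ {orb f a, orb f b}) := by
    ext C
    simp only [Set.mem_image, Set.mem_insert_iff, Set.mem_sdiff, Set.mem_singleton_iff]
    constructor
    · rintro ⟨x, hx, rfl⟩
      rw [hc x hx]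
      split_ifs with h1
      · exact Or.inl rfl
      · right
        refine ⟨⟨x, hx, rfl⟩, ?_⟩
        rintro (h2 | h2)
        · exact h1 (Or.inl ((h.orb_iff hx).1 h2))
        · exact h1 (Or.inr ((h.orb_iff hx).1 h2))
    · rintro (rfl | ⟨⟨x, hx, rfl⟩, h1⟩)
      · refine ⟨a, ha, ?_⟩
        rw [hc a ha, if_pos (Or.inl (R.refl _))]
      · refine ⟨x, hx, ?_⟩
        rw [hc x hx, if_neg]
        rintro (h2 | h2)
        · exact h1 (Or.inl (h.orb_eq hx h2))
        · exact h1 (Or.inr (h.orb_eq hx h2))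
  have hne : orb f a ≠ orb f b := fun h1 => hR ((h.orb_iff ha).1 h1)
  have hnot : (orb f a ∪ orb f b) ∉ ((orb f '' (A : Set α)) \ {orb f a, orb f b}) := by
    rintro ⟨⟨x, hx, he⟩, h1⟩
    simp only [Set.mem_insert_iff, Set.mem_singleton_iff] at h1
    apply h1
    left
    have hxa : a ∈ orb f x := by rw [he]; exact Or.inl (R.refl _)
    rw [← he]
    exact h.orb_eq hx hxa
  unfold nor
  rw [hset, Set.ncard_insert_of_notMem hnot (hfin.subset Set.sdiff_subset)]
  have hsub : ({orb f a, orb f b} : Set (Set α)) ⊆ orb f '' (A : Set α) := by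
    rintro C (rfl | rfl)
    · exact ⟨a, ha, rfl⟩
    · exact ⟨b, hb, rfl⟩
  have h2 := Set.ncard_sdiff_add_ncard_of_subset hsub hfin
  rw [Set.ncard_pair hne] at h2
  omega

theorem Good.nor_split (h : Good f A) (ha : a ∈ A) (hb : b ∈ A) (hab : a ≠ b) (hR : R f a b) :
    nor (FKI.swp f a b) A = nor f A + 1 := by
  have hg := h.swp ha hb
  have h1 : ¬ R (FKI.swp f a b) a b := fun hh => split hab hR (hg.symm ha hh)
  have h2 := hg.nor_merge ha hb h1
  rw [swp_swp] at h2
  exact h2

end

end Q78.FKI
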