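import Pool.Agent.Q78.FKI.Gen

set_option autoImplicit false

/-! The weights of the critical random-cluster model and the change of one edge. -/

namespace Q78.FKI

open Function H974 Finset Pool.Agent.Q297.FKL
open scoped Classical

noncomputable section

variable {m n : ℕ} {q : ℝ} {F : Finset Edg} {c d : Cor}

/-- the next corner of the loop in the configuration `F` -/
def nx (m n : ℕ) (F : Finset Edg) : Cor → Cor := nxt (↑F ∪ wired m n)

/-- the corner before the start of the interface -/
def start (m : ℕ) : Cor := (((m : ℤ), 0), 3)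

theorem nx_eq (m n : ℕ) (F : Finset Edg) : nx m n F = nxt (↑(F ∪ wF m n) : Set Edg) := by
  rw [Finset.coe_union, coe_wF]
  rfl

theorem sub_full (hF : F ⊆ edges m n) : F ∪ wF m n ⊆ full m n :=
  Finset.union_subset_union hF (Finset.Subset.refl _)

theorem good_nx (hF : F ⊆ edges m n) : Good (nx m n F) (CA (verts m n)) := by
  rw [nx_eq]; exact good_full (sub_full hF)

theorem start_mem (m n : ℕ) : start m ∈ CA (verts m n) := by
  rw [mem_CA, mem_verts]
  simp [start]

/-- change of the status of the edge `e` -/
def fl (e : Edg) (F : Finset Edg) : Finset Edg := if e ∈ F then F.erase e else insert e F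

theorem fl_fl (e : Edg) (F : Finset Edg) : fl e (fl e F) = F := by
  unfold fl
  by_cases h : e ∈ F
  · rw [if_pos h, if_neg (Finset.notMem_erase e F), Finset.insert_erase h]
  · rw [if_neg h, if_pos (Finset.mem_insert_self e F), Finset.erase_insert h]

theorem fl_sub {e : Edg} (he : e ∈ edges m n) (hF : F ⊆ edges m n) : fl e F ⊆ edges m n := by
  unfold fl
  split_ifs
  · exact (Finset.erase_subset e F).trans hF
  · exact Finset.insert_subset he hF

theorem not_wF {e : Edg} (he : e ∈ edges m n) : e ∉ wF m n :=
  fun h => (Finset.disjoint_left.1 (disj_wF m n)) he h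

theorem ex_start (m n : ℕ) : ex (start m) ∉ edges m n := by
  intro h
  have : ex (start m) = ((m : ℤ), 0, true) := by simp [ex, start, ed]
  rw [this, mem_edges] at h
  simp at h

theorem start_ne (hc : ex c ∈ edges m n) : start m ≠ c := fun h => ex_start m n (by rw [h]; exact hc)

theorem full_of_edges {e : Edg} (he : e ∈ edges m n) : e ∈ full m n :=
  Finset.mem_union_left _ he

theorem insert_nx (_hF : F ⊆ edges m n) (hc : ex c ∈ edges m n) (hn : ex c ∉ F) :
    nx m n (insert (ex c) F) = swp (nx m n F) c (par c) := by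
  rw [nx_eq, nx_eq, Finset.insert_union, Finset.coe_insert]
  apply nxt_insert
  rw [Finset.mem_coe, Finset.mem_union]
  rintro (h | h)
  · exact hn h
  · exact not_wF hc h

theorem fl_nx (hF : F ⊆ edges m n) (hc : ex c ∈ edges m n) :
    nx m n (fl (ex c) F) = swp (nx m n F) c (par c) := by
  unfold fl
  split_ifs with h
  · have h1 := insert_nx (F := F.erase (ex c)) ((Finset.erase_subset _ _).trans hF) hc
      (Finset.notMem_erase _ _)
    rw [Finset.insert_erase h] at h1
    rw [h1, swp_swp]
  · exact insert_nx hF hc h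

theorem reach_iff (hF : F ⊆ edges m n) (hc : ex c ∈ edges m n) (hn : ex c ∉ F) :
    R (nx m n F) c (par c) ↔ Reach (↑F ∪ wired m n) (src (ex c)) (tgt (ex c)) := by
  constructor
  · intro h
    rw [nx_eq] at h
    have := reach_ex (reach_R h)
    rwa [Finset.coe_union, coe_wF] at this
  · intro h
    by_contra hR
    have hmem := ex_mem (full_of_edges hc)
    have h1 := (good_nx hF).nor_merge hmem.1 hmem.2 hR
    rw [← insert_nx hF hc hn] at h1
    have hnG : ex c ∉ F ∪ wF m n := by
      rw [Finset.mem_union]
      rintro (h | h)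
      · exact hn h
      · exact not_wF hc h
    have g0 := gen_zero (sub_full hF)
    have g1 := gen_zero (sub_full (F := insert (ex c) F) (Finset.insert_subset hc hF))
    rw [nx_eq, nx_eq] at h1
    unfold gen at g0 g1
    rw [Finset.insert_union] at g1 h1
    rw [Finset.card_insert_of_notMem hnG] at g1
    have h2 : ncl (verts m n) (↑(insert (ex c) (F ∪ wF m n)) : Set Edg) =
        ncl (verts m n) (↑(F ∪ wF m n)) := by
      rw [Finset.coe_insert]
      apply ncl_same
      rw [Finset.coe_union, coe_wF]
      exact h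
    rw [h2] at g1
    simp only [Nat.cast_add, Nat.cast_one] at g1 g0
    omega

theorem weight_insert (_hq : 0 < q) (hF : F ⊆ edges m n) (hc : ex c ∈ edges m n)
    (hn : ex c ∉ F) (hR : R (nx m n F) c (par c)) :
    weight m n q (insert (ex c) F) = Real.sqrt q * weight m n q F := by
  have h := (reach_iff hF hc hn).1 hR
  unfold weight clusters
  rw [Finset.card_insert_of_notMem hn, Finset.coe_insert, Set.insert_union, ncl_same _ h, pow_succ]
  ring

theorem weight_insert' (hq : 0 < q) (hF : F ⊆ edges m n) (hc : ex c ∈ edges m n)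
    (hn : ex c ∉ F) (hR : ¬ R (nx m n F) c (par c)) :
    weight m n q F = Real.sqrt q * weight m n q (insert (ex c) F) := by
  have h : ¬ Reach (↑F ∪ wired m n) (src (ex c)) (tgt (ex c)) :=
    fun h => hR ((reach_iff hF hc hn).2 h)
  have he := mem_full.1 (full_of_edges hc)
  have h2 := ncl_merge h he.1 he.2
  unfold weight clusters
  rw [Finset.card_insert_of_notMem hn, Finset.coe_insert, Set.insert_union, h2, pow_succ, pow_succ]
  have h3 : Real.sqrt q * Real.sqrt q = q := Real.mul_self_sqrt hq.le
  calc Real.sqrt q ^ #F * (q ^ ncl (verts m n) (insert (ex c) (↑F ∪ wired m n)) * q)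
      = Real.sqrt q ^ #F * (q ^ ncl (verts m n) (insert (ex c) (↑F ∪ wired m n)) *
        (Real.sqrt q * Real.sqrt q)) := by rw [h3]
    _ = _ := by ring

theorem weight_fl (hq : 0 < q) (hF : F ⊆ edges m n) (hc : ex c ∈ edges m n)
    (hR : R (nx m n F) c (par c)) :
    weight m n q (fl (ex c) F) = Real.sqrt q * weight m n q F := by
  by_cases h : ex c ∈ F
  · have hF0 : F.erase (ex c) ⊆ edges m n := (Finset.erase_subset _ _).trans hF
    have hmem := ex_mem (full_of_edges hc)
    have h0 : nx m n (F.erase (ex c)) = swp (nx m n F) c (par c) := by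
      have := fl_nx hF hc
      unfold fl at this
      rwa [if_pos h] at this
    have hn : ¬ R (nx m n (F.erase (ex c))) c (par c) := by
      intro hh
      rw [h0] at hh
      exact split (par_ne c).symm hR (((good_nx hF).swp hmem.1 hmem.2).symm hmem.1 hh)
    have := weight_insert' hq hF0 hc (Finset.notMem_erase _ _) hn
    rw [Finset.insert_erase h] at this
    unfold fl
    rw [if_pos h, this]
  · unfold fl
    rw [if_neg h]
    exact weight_insert hq hF hc h hR

theorem fk_fl (hq : 0 < q) (hF : F ⊆ edges m n) (hc : ex c ∈ edges m n)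
    (hR : R (nx m n F) c (par c)) : fk m n q (fl (ex c) F) = Real.sqrt q * fk m n q F := by
  unfold fk
  rw [weight_fl hq hF hc hR]
  ring

/-- finite energy -/
theorem weight_fl_le (hq : 0 < q) (hF : F ⊆ edges m n) {e : Edg} (he : e ∈ edges m n) {B : ℝ}
    (hB1 : Real.sqrt q ≤ B) (hB2 : 1 / Real.sqrt q ≤ B) :
    weight m n q F ≤ B * weight m n q (fl e F) := by
  have hs := Real.sqrt_pos.2 hq
  have hw : ∀ G, 0 ≤ weight m n q G := fun G => by unfold weight; positivity
  obtain ⟨c, rfl⟩ : ∃ c, ex c = e := ⟨cor0 e, ex_cor0 e⟩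
  have hmem := ex_mem (full_of_edges he)
  by_cases hR : R (nx m n F) c (par c)
  · have h1 := weight_fl hq hF he hR
    have h2 : weight m n q F = 1 / Real.sqrt q * weight m n q (fl (ex c) F) := by
      rw [h1]; field_simp
    rw [h2]
    exact mul_le_mul_of_nonneg_right hB2 (hw _)
  · have h0 := fl_nx hF he
    have hR' : R (nx m n (fl (ex c) F)) c (par c) := by
      rw [h0]
      have h3 := (good_nx hF).merge hmem.1 hR (R.refl _)
      exact ((good_nx hF).swp hmem.1 hmem.2).symm hmem.2 h3
    have h1 := weight_fl hq (fl_sub he hF) he hR'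
    rw [fl_fl] at h1
    rw [h1]
    exact mul_le_mul_of_nonneg_right hB1 (hw _)

end

end Q78.FKI
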